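import Pool.Agent.X28.SP.Vec

/-! The vector form, with `log log N` and with an upper bound. -/

set_option autoImplicit false

open Finset

namespace Pool.Agent.X28.SP

theorem generalV (r : ℕ) (hr : 1 ≤ r) : ∃ c : ℝ, 0 < c ∧ ∃ N0 : ℕ, ∀ (N X : ℕ) (K : Finset ℕ)
    (f : Fin r → ℕ → ℕ), N0 ≤ N → (∀ i, Set.InjOn (f i) K) → (∀ i, ∀ k ∈ K, 1 ≤ f i k ∧ f i k ≤ N ^ 5) →
    N ^ 96 ≤ X → Real.log X ^ r ≤ K.card →
    c * X ^ r / Real.log (Real.log N) ^ r ≤
      (((Box r X).filter fun h => c * K.card / Real.log X ^ r ≤ ((hitV K f h).card : ℝ)).card : ℝ) := by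
  classical
  obtain ⟨c, hc, X0, h0⟩ := sparseV r hr
  refine ⟨c / 3 ^ r, by positivity, max X0 100, ?_⟩
  intro N X K f hN hinj hf hX hm
  have hN100 : 100 ≤ N := by omega
  have hNr : (100 : ℝ) ≤ N := by exact_mod_cast hN100
  have hN0 : (0 : ℝ) < N := by linarith
  have hNX : N ≤ X := (Nat.le_self_pow (by norm_num) N).trans hX
  have hYX : 2 * ((N ^ 5 : ℕ) : ℝ) ≤ (X : ℝ) ^ (1 / 16 : ℝ) := by
    have h1 : ((N : ℝ) ^ 6) ≤ (X : ℝ) ^ (1 / 16 : ℝ) := by
      have h2 : ((N : ℝ) ^ 6) = ((N : ℝ) ^ 96) ^ (1 / 16 : ℝ) := by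
        rw [← Real.rpow_natCast, ← Real.rpow_natCast, ← Real.rpow_mul hN0.le]
        norm_num
      rw [h2]
      apply Real.rpow_le_rpow (by positivity) _ (by norm_num)
      exact_mod_cast hX
    push_cast
    have h5 : (0 : ℝ) < (N : ℝ) ^ 5 := by positivity
    nlinarith
  have h1 := h0 X (N ^ 5) K f (by omega) (by
    calc 16 ≤ N := by omega
      _ ≤ N ^ 5 := Nat.le_self_pow (by norm_num) N) hinj (fun i k hk => by
        rw [mem_Icc]; exact hf i k hk) hYX hm
  have h2 : (0 : ℝ) < Real.log N := Real.log_pos (by linarith)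
  have hle : (1 : ℝ) < Real.log (Real.log N) := by
    have h3 : (4 : ℝ) < Real.log N := by
      rw [Real.lt_log_iff_exp_lt hN0]
      have h4 : Real.exp (4 : ℝ) = Real.exp 1 ^ 4 := by rw [← Real.exp_nat_mul]; norm_num
      rw [h4]
      have h5 := pow_lt_pow_left₀ Real.exp_one_lt_d9 (Real.exp_pos 1).le (show 4 ≠ 0 by norm_num)
      refine h5.trans_le (le_trans ?_ hNr)
      norm_num
    rw [Real.lt_log_iff_exp_lt (by linarith)]
    linarith [Real.exp_one_lt_d9]
  have hl5 : Real.log 5 ≤ 2 := by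
    rw [Real.log_le_iff_le_exp (by norm_num)]
    have h4 : Real.exp (2 : ℝ) = Real.exp 1 ^ 2 := by rw [← Real.exp_nat_mul]; norm_num
    rw [h4]
    nlinarith [Real.exp_one_gt_d9]
  have hl50 : 0 < Real.log 5 := Real.log_pos (by norm_num)
  have e5 : Real.log (Real.log ((N ^ 5 : ℕ) : ℝ)) = Real.log 5 + Real.log (Real.log N) := by
    push_cast
    rw [Real.log_pow]
    push_cast
    rw [Real.log_mul (by norm_num) h2.ne']
  have hll : Real.log (Real.log ((N ^ 5 : ℕ) : ℝ)) ≤ 3 * Real.log (Real.log N) := by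
    rw [e5]
    linarith
  have hll0 : 0 < Real.log (Real.log ((N ^ 5 : ℕ) : ℝ)) := by
    rw [e5]
    linarith
  have hLX : 0 < Real.log X := Real.log_pos (by
    have : (100 : ℝ) ≤ X := by exact_mod_cast hN100.trans hNX
    linarith)
  have hcle : c / 3 ^ r ≤ c := div_le_self hc.le (one_le_pow₀ (by norm_num))
  have h3 : c / 3 ^ r * X ^ r / Real.log (Real.log N) ^ r ≤
      c * X ^ r / Real.log (Real.log ((N ^ 5 : ℕ) : ℝ)) ^ r := by
    rw [div_le_div_iff₀ (by positivity) (by positivity)]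
    have h4 : Real.log (Real.log ((N ^ 5 : ℕ) : ℝ)) ^ r ≤ 3 ^ r * Real.log (Real.log N) ^ r := by
      rw [← mul_pow]
      exact pow_le_pow_left₀ hll0.le hll r
    calc c / 3 ^ r * X ^ r * Real.log (Real.log ((N ^ 5 : ℕ) : ℝ)) ^ r ≤
        c / 3 ^ r * X ^ r * (3 ^ r * Real.log (Real.log N) ^ r) :=
          mul_le_mul_of_nonneg_left h4 (by positivity)
      _ = c * X ^ r * Real.log (Real.log N) ^ r := by field_simp
  refine h3.trans (h1.trans ?_)
  have h4 : (Box r X).filter (fun h => c * K.card / Real.log X ^ r ≤ ((hitV K f h).card : ℝ)) ⊆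
      (Box r X).filter (fun h => c / 3 ^ r * K.card / Real.log X ^ r ≤ ((hitV K f h).card : ℝ)) := by
    intro h hh
    rw [mem_filter] at hh ⊢
    refine ⟨hh.1, le_trans ?_ hh.2⟩
    gcongr
  exact_mod_cast card_le_card h4

/-- few vectors have an index at all if the index set is small -/
theorem upperV (r : ℕ) : ∃ C : ℝ, 0 < C ∧ ∀ (X : ℕ) (K : Finset ℕ) (f : Fin r → ℕ → ℕ), 2 ≤ X →
    (∀ i, ∀ k ∈ K, f i k ≤ X) →
    (((Box r X).filter fun h => (hitV K f h).Nonempty).card : ℝ) ≤ C * K.card * X ^ r / Real.log X ^ r := by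
  classical
  obtain ⟨C2, hC2, hU⟩ := up
  refine ⟨C2 ^ r, by positivity, fun X K f hX hf => ?_⟩
  have h1 : (((Box r X).filter fun h => (hitV K f h).Nonempty).card : ℝ) ≤
      ∑ h ∈ Box r X, (#(hitV K f h) : ℝ) := by
    have h2 : (#((Box r X).filter fun h => (hitV K f h).Nonempty) : ℝ) =
        ∑ h ∈ (Box r X).filter (fun h => (hitV K f h).Nonempty), (1 : ℝ) := by
      rw [sum_const, nsmul_eq_mul, mul_one]
    rw [h2]
    refine (sum_le_sum (g := fun h => (#(hitV K f h) : ℝ)) fun h hh => ?_).trans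
      (sum_le_sum_of_subset_of_nonneg (filter_subset _ _) fun _ _ _ => Nat.cast_nonneg _)
    have := card_pos.2 (mem_filter.1 hh).2
    exact_mod_cast this
  refine h1.trans ?_
  rw [firstV]
  have h3 : ∀ k ∈ K, ∏ j, (#((Icc 1 X).filter fun h => (f j k + h).Prime) : ℝ) ≤
      (C2 * X / Real.log X) ^ r := by
    intro k hk
    have e : (C2 * (X : ℝ) / Real.log X) ^ r = ∏ _j : Fin r, (C2 * (X : ℝ) / Real.log X) := by
      rw [prod_const, card_univ, Fintype.card_fin]
    rw [e]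
    exact prod_le_prod (fun _ _ => Nat.cast_nonneg _) fun j _ => hU X (f j k) hX (hf j k hk)
  refine (sum_le_sum h3).trans (le_of_eq ?_)
  rw [sum_const, nsmul_eq_mul, div_pow, mul_pow]
  ring

end Pool.Agent.X28.SP
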