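import Pool.Agent.Y886.PPD

/-! Many different primes `φ(k) + φ(n - k) / 2 + 1`, for a positive proportion of the `n`. -/

set_option autoImplicit false
set_option maxHeartbeats 1000000

namespace Pool.Agent.X28.SP.Tot

open Finset Filter Pool.Agent.Y886.PP

/-- the value of `q (n, k)` -/
def q (n k : ℕ) : ℕ := Nat.totient k + Nat.totient (n - k) / 2 + 1

/-- the different primes `q (n, k)`, `1 ≤ k < n - 2` -/
def QF (n : ℕ) : Finset ℕ := ((range n).filter (fun k => 1 ≤ k ∧ k + 2 < n ∧ (q n k).Prime)).image (q n)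

/-- the property of `n` -/
def GoodQ (n : ℕ) : Prop := (n : ℝ) / Real.log n ^ 14 ≤ ((QF n).card : ℝ)

lemma fib_leQ (X N n : ℕ) : (fib X N n).card ≤ (QF n).card := by
  classical
  apply card_le_card_of_injOn (fun z => n - 2 * z.1 - 1)
  · intro z hz
    rw [mem_coe] at hz
    unfold fib at hz
    obtain ⟨hz1, hz2⟩ := mem_filter.1 hz
    unfold pairs at hz1
    rw [mem_filter, mem_product, mem_Icc] at hz1
    obtain ⟨⟨⟨h1, h2⟩, h3⟩, h4, h5, h6, h7, h8⟩ := hz1
    have e : q n z.2 = n - 2 * z.1 - 1 := by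
      have := q_val h5 h4 h1
      unfold q
      rw [← hz2, this]
      omega
    rw [mem_coe]
    unfold QF
    refine mem_image.2 ⟨z.2, ?_, e⟩
    rw [mem_filter, mem_range]
    refine ⟨by omega, h5.one_le, by omega, ?_⟩
    rw [e, ← hz2]
    have e3 : z.2 + 3 * z.1 - 2 * z.1 - 1 = z.2 + z.1 - 1 := by omega
    rw [e3]
    exact h6
  · intro a ha b hb hab
    rw [mem_coe] at ha hb
    unfold fib at ha hb
    have ea := (mem_filter.1 ha).2
    have eb := (mem_filter.1 hb).2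
    have pa := (mem_filter.1 ha).1
    have pb := (mem_filter.1 hb).1
    unfold pairs at pa pb
    rw [mem_filter, mem_product, mem_Icc] at pa pb
    obtain ⟨⟨⟨h1, h2⟩, h3⟩, h4, h5, h6, h7, h8⟩ := pa
    obtain ⟨⟨⟨k1, k2⟩, k3⟩, k4, k5, k6, k7, k8⟩ := pb
    have hra := h5.two_le
    have hrb := k5.two_le
    simp only at hab
    exact Prod.ext (by omega) (by omega)

/-- the final form -/
theorem good_q : ∃ c : ℝ, 0 < c ∧ ∀ᶠ x : ℕ in atTop,
    c * x ≤ (Set.ncard {n : ℕ | 32 ≤ n ∧ n ≤ x ∧ GoodQ n} : ℝ) := by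
  classical
  obtain ⟨c, hc, hs⟩ := sums_card
  obtain ⟨X0, h0⟩ := eventually_atTop.1 hs
  have tN : Tendsto (fun N : ℕ => (N : ℝ)) atTop atTop := tendsto_natCast_atTop_atTop
  have tL : Tendsto (fun N : ℕ => Real.log (N : ℝ)) atTop atTop := Real.tendsto_log_atTop.comp tN
  refine ⟨c / 32, by positivity, ?_⟩
  obtain ⟨X1, h1⟩ := eventually_atTop.1 ((tL.eventually_ge_atTop (2 ^ 30)).and
    (tN.eventually_ge_atTop ((4 / c) ^ 2)))
  filter_upwards [eventually_ge_atTop (8 * (X0 + X1 + 1024))] with x hx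
  obtain ⟨X, hX⟩ : ∃ X, X = x / 4 := ⟨_, rfl⟩
  have hX1 : X0 + X1 + 1024 ≤ X := by omega
  have hXx : x ≤ 8 * X := by omega
  have hXx' : 4 * X ≤ x := by omega
  obtain ⟨N, hNX, hN10, hN⟩ := h0 X (by omega)
  obtain ⟨g1, g2⟩ := h1 X (by omega)
  have hX8 : (1024 : ℝ) ≤ X := by exact_mod_cast (by omega : 1024 ≤ X)
  have hXr : (x : ℝ) ≤ 8 * X := by exact_mod_cast hXx
  -- drop the small `n`
  obtain ⟨I, hI⟩ : ∃ I : Finset ℕ, I = (sums X N).filter (fun n : ℕ => (c / 2) * X ≤ (n : ℝ)) :=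
    ⟨_, rfl⟩
  have hIcard : (c / 2) * X - 1 ≤ I.card := by
    have b1 : sums X N ⊆ I ∪ range (⌊(c / 2) * X⌋₊ + 1) := by
      intro n hn
      rw [mem_union, hI, mem_filter, mem_range]
      by_cases h : (c / 2) * X ≤ (n : ℝ)
      · left
        exact ⟨hn, h⟩
      · right
        rw [not_le] at h
        exact Nat.lt_succ_of_le (Nat.le_floor h.le)
    have b2 := (card_le_card b1).trans (card_union_le _ _)
    rw [card_range] at b2
    have b3 : ((sums X N).card : ℝ) ≤ I.card + (⌊(c / 2) * X⌋₊ + 1) := by exact_mod_cast b2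
    have b4 : (⌊(c / 2) * (X : ℝ)⌋₊ : ℝ) ≤ (c / 2) * X := Nat.floor_le (by positivity)
    linarith
  have hsub : (I : Set ℕ) ⊆ {n : ℕ | 32 ≤ n ∧ n ≤ x ∧ GoodQ n} := by
    intro n hn
    rw [mem_coe, hI, mem_filter] at hn
    have b1 := mem_Icc.1 (sums_mem hNX hn.1)
    -- `log n ≥ log X / 2`
    have b2 : (X : ℝ) ≤ (n : ℝ) ^ 2 := by
      have c1 : 4 ≤ c ^ 2 * X := by
        rw [div_pow, div_le_iff₀ (by positivity)] at g2
        nlinarith
      calc (X : ℝ) ≤ (c ^ 2 * X / 4) * X := by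
            have : (1 : ℝ) ≤ c ^ 2 * X / 4 := by linarith
            exact le_mul_of_one_le_left (by linarith) this
        _ = ((c / 2) * X) ^ 2 := by ring
        _ ≤ (n : ℝ) ^ 2 := by
            apply pow_le_pow_left₀ (by positivity) hn.2
    have b22 : 32 ≤ n := by
      have c1 : (1024 : ℝ) ≤ (n : ℝ) ^ 2 := hX8.trans b2
      have c2 : 1024 ≤ n ^ 2 := by exact_mod_cast c1
      nlinarith
    refine ⟨b22, by omega, ?_⟩
    have b3 : Real.log X ≤ 2 * Real.log n := by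
      have := Real.log_le_log (by linarith) b2
      rw [Real.log_pow] at this
      exact_mod_cast this
    obtain ⟨L, hL⟩ : ∃ L, L = Real.log (X : ℝ) := ⟨_, rfl⟩
    obtain ⟨l, hl⟩ : ∃ l, l = Real.log (n : ℝ) := ⟨_, rfl⟩
    rw [← hL] at g1 b3 hN10
    rw [← hl] at b3
    have b4 : L / 2 ≤ l := by linarith
    have b5 : L ^ 10 ≤ l ^ 11 := by
      calc L ^ 10 = (2 ^ 11) * L ^ 10 / 2 ^ 11 := by ring
        _ ≤ L * L ^ 10 / 2 ^ 11 := by gcongr; linarith
        _ = (L / 2) ^ 11 := by ring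
        _ ≤ l ^ 11 := pow_le_pow_left₀ (by linarith) b4 11
    have b6 : (fib X N n).card ≤ (QF n).card := fib_leQ X N n
    have b7 : (N : ℝ) / (128 * L ^ 3) ≤ ((fib X N n).card : ℝ) := by
      have := hn.1
      unfold sums at this
      rw [hL]
      exact (mem_filter.1 this).2
    have b8 : (n : ℝ) / l ^ 14 ≤ N / (128 * L ^ 3) := by
      have c0 : (n : ℝ) ≤ 4 * X := by exact_mod_cast b1.2
      have c1 : (n : ℝ) ≤ 4 * (N * L ^ 10) := by linarith
      have hl0 : 0 < l := by linarith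
      have hL0 : 0 < L := by linarith
      rw [div_le_div_iff₀ (by positivity) (by positivity)]
      have c2 : 512 * L ^ 13 ≤ l ^ 14 := by
        calc 512 * L ^ 13 = (512 * 2 ^ 14) * L ^ 13 / 2 ^ 14 := by ring
          _ ≤ L * L ^ 13 / 2 ^ 14 := by gcongr; linarith
          _ = (L / 2) ^ 14 := by ring
          _ ≤ l ^ 14 := pow_le_pow_left₀ (by linarith) b4 14
      calc (n : ℝ) * (128 * L ^ 3) ≤ 4 * (N * L ^ 10) * (128 * L ^ 3) := by gcongr
        _ = N * (512 * L ^ 13) := by ring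
        _ ≤ N * l ^ 14 := by gcongr
    show (n : ℝ) / Real.log n ^ 14 ≤ ((QF n).card : ℝ)
    rw [← hl]
    refine b8.trans (b7.trans ?_)
    exact_mod_cast b6
  have hfin : {n : ℕ | 32 ≤ n ∧ n ≤ x ∧ GoodQ n}.Finite :=
    (Set.finite_Iic x).subset fun n hn => hn.2.1
  have hcard : I.card ≤ Set.ncard {n : ℕ | 32 ≤ n ∧ n ≤ x ∧ GoodQ n} := by
    rw [← Set.ncard_coe_finset]
    exact Set.ncard_le_ncard hsub hfin
  have hcard' : (I.card : ℝ) ≤ Set.ncard {n : ℕ | 32 ≤ n ∧ n ≤ x ∧ GoodQ n} := by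
    exact_mod_cast hcard
  have hcX : 1 ≤ c * X / 4 := by
    by_contra hcon
    rw [not_le] at hcon
    have d1 : (4 / c) ^ 2 ≤ X := g2
    rw [div_pow, div_le_iff₀ (by positivity)] at d1
    nlinarith
  refine le_trans ?_ hcard'
  have d2 : c / 32 * (x : ℝ) ≤ c / 32 * (8 * X) := mul_le_mul_of_nonneg_left hXr (by positivity)
  linarith

end Pool.Agent.X28.SP.Tot
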