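import Mathlib

/-! A metric lemma: events which have a positive proportion in every interval happen, at almost every
point, for a set of `n` of positive upper density. -/

set_option autoImplicit false

open Filter Topology MeasureTheory

namespace Pool.Agent.X28.SP

/-- number of `n < N` with the event -/
noncomputable def fE (E : ℕ → Set ℝ) (N : ℕ) (β : ℝ) : ℝ :=
  ∑ n ∈ Finset.range N, (E n).indicator 1 β

lemma fE_meas (E : ℕ → Set ℝ) (hE : ∀ n, MeasurableSet (E n)) (N : ℕ) : Measurable (fE E N) := by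
  unfold fE
  refine Finset.measurable_fun_sum _ fun n _ => ?_
  exact measurable_one.indicator (hE n)

lemma fE_le (E : ℕ → Set ℝ) (N : ℕ) (β : ℝ) : fE E N β ≤ N := by
  unfold fE
  calc ∑ n ∈ Finset.range N, (E n).indicator 1 β ≤ ∑ _n ∈ Finset.range N, (1 : ℝ) := by
        refine Finset.sum_le_sum fun n _ => ?_
        exact Set.indicator_le_self' (fun _ _ => zero_le_one) β |>.trans (by simp)
    _ = N := by simp

lemma fE_integral (E : ℕ → Set ℝ) (hE : ∀ n, MeasurableSet (E n)) (N : ℕ) (I : Set ℝ)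
    (hI : volume I ≠ ⊤) :
    ∫ β in I, fE E N β = ∑ n ∈ Finset.range N, volume.real (E n ∩ I) := by
  unfold fE
  have : IsFiniteMeasure (volume.restrict I) := ⟨by
    rw [Measure.restrict_apply_univ]
    exact lt_top_iff_ne_top.2 hI⟩
  rw [integral_finsetSum]
  · refine Finset.sum_congr rfl fun n _ => ?_
    rw [integral_indicator_one (hE n)]
    unfold Measure.real
    rw [Measure.restrict_apply (hE n)]
  · intro n _
    exact (integrable_const (1 : ℝ)).indicator (hE n)

lemma Z_null (E : ℕ → Set ℝ) (hE : ∀ n, MeasurableSet (E n)) (c : ℝ) (hc0 : 0 < c) (hc1 : c ≤ 1)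
    (hloc : ∀ u v : ℝ, 0 < u → u < v → v ≤ 2 * u →
      ∀ᶠ n : ℕ in atTop, c * (v - u) ≤ volume.real (E n ∩ Set.Icc u v)) (M : ℕ) :
    volume {β : ℝ | 0 < β ∧ ∀ N : ℕ, M ≤ N → fE E N β ≤ c / 2 * N} = 0 := by
  set Z : Set ℝ := {β : ℝ | 0 < β ∧ ∀ N : ℕ, M ≤ N → fE E N β ≤ c / 2 * N} with hZ
  by_contra hcon
  have hZm : MeasurableSet Z := by
    have h1 : Z = Set.Ioi 0 ∩ ⋂ N : ℕ, ⋂ _ : M ≤ N, {β : ℝ | fE E N β ≤ c / 2 * N} := by
      ext β
      simp only [hZ, Set.mem_ofPred_eq, Set.mem_inter_iff, Set.mem_Ioi, Set.mem_iInter]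
    rw [h1]
    refine measurableSet_Ioi.inter (MeasurableSet.iInter fun N => MeasurableSet.iInter fun _ => ?_)
    exact measurableSet_le (fE_meas E hE N) measurable_const
  have hne : (ae (volume.restrict Z)).NeBot := by
    rw [ae_neBot]
    intro h
    rw [Measure.restrict_eq_zero] at h
    exact hcon h
  obtain ⟨β₀, hβ₀, hβ₀Z⟩ := ((Besicovitch.ae_tendsto_measure_inter_div volume Z).and
    (ae_restrict_mem hZm)).exists
  have hβpos : 0 < β₀ := hβ₀Z.1
  set ε : ℝ := c / 8 with hε
  have hε0 : 0 < ε := by positivity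
  have hε1 : ε < 1 := by rw [hε]; linarith
  have ev1 : ∀ᶠ r : ℝ in 𝓝[>] 0, ENNReal.ofReal (1 - ε) <
      volume (Z ∩ Metric.closedBall β₀ r) / volume (Metric.closedBall β₀ r) := by
    apply hβ₀.eventually_const_lt
    rw [ENNReal.ofReal_lt_one]
    linarith
  have ev2 : ∀ᶠ r : ℝ in 𝓝[>] 0, r < β₀ / 3 := by
    apply eventually_nhdsWithin_of_eventually_nhds
    exact eventually_lt_nhds (by positivity)
  have ev3 : ∀ᶠ r : ℝ in 𝓝[>] (0 : ℝ), 0 < r := eventually_mem_nhdsWithin
  obtain ⟨r, ⟨hr1, hr2⟩, hr0⟩ := ((ev1.and ev2).and ev3).exists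
  rw [Real.closedBall_eq_Icc] at hr1
  set u : ℝ := β₀ - r with hu
  set v : ℝ := β₀ + r with hv
  have hu0 : 0 < u := by rw [hu]; linarith
  have hvu : v - u = 2 * r := by rw [hu, hv]; ring
  have hvolI : volume (Set.Icc u v) = ENNReal.ofReal (2 * r) := by rw [Real.volume_Icc, hvu]
  have hIr : volume.real (Set.Icc u v) = 2 * r := by
    unfold Measure.real
    rw [hvolI, ENNReal.toReal_ofReal (by positivity)]
  have hInt : volume (Set.Icc u v) ≠ ⊤ := by rw [hvolI]; exact ENNReal.ofReal_ne_top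
  -- measure of the complement
  have hcomp : volume.real (Set.Icc u v \ Z) ≤ ε * (2 * r) := by
    have h1 : ENNReal.ofReal (1 - ε) * volume (Set.Icc u v) ≤ volume (Z ∩ Set.Icc u v) := by
      have h2 := hr1.le
      rwa [ENNReal.le_div_iff_mul_le (Or.inl (by rw [hvolI]; simp; linarith)) (Or.inl hInt)] at h2
    have h2 : (1 - ε) * (2 * r) ≤ volume.real (Z ∩ Set.Icc u v) := by
      unfold Measure.real
      rw [hvolI, ← ENNReal.ofReal_mul (by linarith)] at h1
      exact (ENNReal.ofReal_le_iff_le_toReal (ne_top_of_le_ne_top hInt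
        (measure_mono Set.inter_subset_right))).1 h1
    have h3 := measureReal_inter_add_sdiff (μ := volume) (s := Set.Icc u v) hZm hInt
    rw [Set.inter_comm, hIr] at h3
    linarith
  -- lower bound
  obtain ⟨n₀, hn₀⟩ := (hloc u v hu0 (by linarith) (by rw [hu, hv]; linarith)).exists_forall_of_atTop
  -- the integral
  have hfin : IsFiniteMeasure (volume.restrict (Set.Icc u v)) := ⟨by
    rw [Measure.restrict_apply_univ]
    exact lt_top_iff_ne_top.2 hInt⟩
  have hmain : ∀ N : ℕ, n₀ ≤ N → M ≤ N →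
      ((N : ℝ) - n₀) * (c * (2 * r)) ≤ (c / 2 + ε) * N * (2 * r) := by
    intro N hN1 hN2
    have h1 : ((N : ℝ) - n₀) * (c * (2 * r)) ≤ ∫ β in Set.Icc u v, fE E N β := by
      rw [fE_integral E hE N _ hInt, Finset.range_eq_Ico,
        ← Finset.sum_Ico_consecutive _ (Nat.zero_le n₀) hN1]
      have h2 : ((N : ℝ) - n₀) * (c * (2 * r)) ≤
          ∑ n ∈ Finset.Ico n₀ N, volume.real (E n ∩ Set.Icc u v) := by
        calc ((N : ℝ) - n₀) * (c * (2 * r)) =
            ∑ _n ∈ Finset.Ico n₀ N, c * (2 * r) := by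
              rw [Finset.sum_const, Nat.card_Ico, nsmul_eq_mul, Nat.cast_sub hN1]
          _ ≤ _ := Finset.sum_le_sum fun n hn => by
              have := hn₀ n (Finset.mem_Ico.1 hn).1
              rwa [hvu] at this
      have h3 : 0 ≤ ∑ n ∈ Finset.Ico 0 n₀, volume.real (E n ∩ Set.Icc u v) :=
        Finset.sum_nonneg fun _ _ => measureReal_nonneg
      linarith
    have h2 : ∫ β in Set.Icc u v, fE E N β ≤
        ∫ β in Set.Icc u v, (c / 2 * N + Zᶜ.indicator (fun _ => (N : ℝ)) β) := by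
      apply integral_mono
      · unfold fE
        refine integrable_finsetSum _ fun n _ => ?_
        exact (integrable_const (1 : ℝ)).indicator (hE n)
      · exact (integrable_const _).add ((integrable_const _).indicator hZm.compl)
      · intro β
        simp only
        by_cases hβ : β ∈ Z
        · rw [Set.indicator_of_notMem (by simpa using hβ), add_zero]
          exact hβ.2 N hN2
        · rw [Set.indicator_of_mem (by simpa using hβ)]
          have h3 := fE_le E N β
          have h4 : 0 ≤ c / 2 * (N : ℝ) := by positivity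
          linarith
    have h3 : ∫ β in Set.Icc u v, (c / 2 * N + Zᶜ.indicator (fun _ => (N : ℝ)) β) =
        c / 2 * N * (2 * r) + N * volume.real (Set.Icc u v \ Z) := by
      rw [integral_add (integrable_const _) ((integrable_const _).indicator hZm.compl),
        integral_const, integral_indicator_const _ hZm.compl]
      unfold Measure.real
      rw [Measure.restrict_apply_univ, Measure.restrict_apply hZm.compl, hvolI,
        ENNReal.toReal_ofReal (by positivity), smul_eq_mul, smul_eq_mul, Set.inter_comm,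
        ← Set.sdiff_eq]
      ring
    have h4 : (N : ℝ) * volume.real (Set.Icc u v \ Z) ≤ N * (ε * (2 * r)) :=
      mul_le_mul_of_nonneg_left hcomp (Nat.cast_nonneg _)
    calc _ ≤ _ := h1
      _ ≤ _ := h2
      _ = _ := h3
      _ ≤ c / 2 * N * (2 * r) + N * (ε * (2 * r)) := by linarith
      _ = _ := by ring
  have hfinal := hmain (4 * n₀ + M + 1) (by omega) (by omega)
  push_cast at hfinal
  have hn₀0 : (0 : ℝ) ≤ n₀ := Nat.cast_nonneg _
  have hM0 : (0 : ℝ) ≤ M := Nat.cast_nonneg _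
  have h1 : ((4 * n₀ + M + 1 : ℝ) - n₀) * c ≤ (c / 2 + ε) * (4 * n₀ + M + 1) := by
    have h2 : (((4 * n₀ + M + 1 : ℝ) - n₀) * c) * (2 * r) ≤
        ((c / 2 + ε) * (4 * n₀ + M + 1)) * (2 * r) := by linarith
    exact le_of_mul_le_mul_right h2 (by positivity)
  rw [hε] at h1
  nlinarith

open Classical in
/-- for almost all `θ > 0` the event has positive upper density -/
theorem metric2 (E : ℕ → Set ℝ) (hE : ∀ n, MeasurableSet (E n)) (c : ℝ) (hc0 : 0 < c) (hc1 : c ≤ 1)
    (hloc : ∀ u v : ℝ, 0 < u → u < v → v ≤ 2 * u →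
      ∀ᶠ n : ℕ in atTop, c * (v - u) ≤ volume.real (E n ∩ Set.Icc u v)) :
    ∀ᵐ θ : ℝ, 0 < θ → ∃ᶠ N : ℕ in atTop, c / 2 * N ≤
      (((Finset.range N).filter (fun n : ℕ => θ ∈ E n)).card : ℝ) := by
  let W : Set ℝ := ⋃ M : ℕ, {β : ℝ | 0 < β ∧ ∀ N : ℕ, M ≤ N → fE E N β ≤ c / 2 * N}
  have hW : volume W = 0 := measure_iUnion_null fun M => Z_null E hE c hc0 hc1 hloc M
  have hae : ∀ᵐ θ : ℝ, θ ∉ W := measure_eq_zero_iff_ae_notMem.1 hW
  filter_upwards [hae] with θ hθ hθ0
  by_contra hcon
  rw [Filter.not_frequently] at hcon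
  obtain ⟨M, hM⟩ := hcon.exists_forall_of_atTop
  apply hθ
  simp only [W, Set.mem_iUnion]
  refine ⟨M, hθ0, fun N hN => ?_⟩
  have h1 := hM N hN
  push Not at h1
  refine le_of_eq_of_le ?_ h1.le
  unfold fE
  rw [Finset.card_filter]
  push_cast
  refine Finset.sum_congr rfl fun n _ => ?_
  rw [Set.indicator_apply]
  simp only [Pi.one_apply]

end Pool.Agent.X28.SP
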