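import Pool.Agent.X28.SP.Blocks
import Pool.Agent.X28.SP.Metric2
import Pool.Agent.H357R2.SI.Common

/-! Primes just above almost all terms of `θ β ^ n`. -/

set_option autoImplicit false

open Finset Filter Topology MeasureTheory

namespace Pool.Agent.X28.SP
open Pool.Agent.H197R2.PG Pool.Agent.H357R2.SI

/-- the `j ≤ H` with `m + j` prime -/
def hit0 (H m : ℕ) : Finset ℕ := (Icc 1 H).filter fun j => (m + j).Prime

/-- second moment in an interval -/
lemma blockI : ∃ C : ℝ, 1 ≤ C ∧ ∃ u0 : ℕ, ∀ a H u : ℕ, u0 ≤ u → 2 * (H : ℝ) ≤ (u : ℝ) ^ (1 / 16 : ℝ) →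
    ∑ k ∈ Ioc a (a + u), (#(hit0 H k) : ℝ) ^ 2 ≤ u + C * (H : ℝ) ^ 2 * u / Real.log u ^ 2 := by
  obtain ⟨C1, hC1, hA⟩ := avg_interval
  obtain ⟨C2, hC2, u0, hP⟩ := pair_sieve_sharp
  refine ⟨2 * (C2 * C1), by nlinarith, u0, fun a H u hu hH => ?_⟩
  have h1 : ∀ k ∈ Ioc a (a + u), (#(hit0 H k) : ℝ) ^ 2 ≤
      1 + 2 * (#((hit0 H k).offDiag) : ℝ) := by
    intro k _
    have h2 : #((hit0 H k).offDiag) + #(hit0 H k) = #(hit0 H k) ^ 2 := by
      rw [offDiag_card, sq]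
      have : #(hit0 H k) ≤ #(hit0 H k) * #(hit0 H k) := Nat.le_mul_self _
      omega
    have h3 : #(hit0 H k) ≤ 1 + #((hit0 H k).offDiag) := by
      rw [offDiag_card]
      rcases Nat.lt_or_ge (#(hit0 H k)) 2 with h | h
      · omega
      · have : 2 * #(hit0 H k) ≤ #(hit0 H k) * #(hit0 H k) := Nat.mul_le_mul_right _ h
        omega
    have h4 : #(hit0 H k) ^ 2 ≤ 1 + 2 * #((hit0 H k).offDiag) := by omega
    exact_mod_cast h4
  refine (sum_le_sum h1).trans ?_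
  rw [sum_add_distrib, ← mul_sum]
  have hcard : ∑ k ∈ Ioc a (a + u), (1 : ℝ) = u := by
    simp
  rw [hcard]
  have h2 : ∑ k ∈ Ioc a (a + u), (#((hit0 H k).offDiag) : ℝ) =
      ∑ x ∈ (Icc 1 H).offDiag, (#((Ioc a (a + u)).filter fun k =>
        (k + x.1).Prime ∧ (k + x.2).Prime) : ℝ) := by
    have e1 : ∀ k, #((hit0 H k).offDiag) = #((Icc 1 H).offDiag.filter fun x =>
        (k + x.1).Prime ∧ (k + x.2).Prime) := by
      intro k
      congr 1
      ext x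
      unfold hit0
      simp only [mem_offDiag, mem_filter]
      tauto
    have e2 : ∑ k ∈ Ioc a (a + u), #((hit0 H k).offDiag) =
      ∑ x ∈ (Icc 1 H).offDiag, #((Ioc a (a + u)).filter fun k =>
        (k + x.1).Prime ∧ (k + x.2).Prime) := by
      simp only [e1, card_filter]
      exact sum_comm
    exact_mod_cast e2
  rw [h2]
  have h3 : ∑ x ∈ (Icc 1 H).offDiag, (#((Ioc a (a + u)).filter fun k =>
        (k + x.1).Prime ∧ (k + x.2).Prime) : ℝ) ≤
      ∑ x ∈ (Icc 1 H).offDiag, C2 * gg (2 * Nat.dist x.1 x.2) * u / Real.log u ^ 2 := by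
    apply sum_le_sum
    intro x hx
    rw [mem_offDiag, mem_Icc, mem_Icc] at hx
    obtain ⟨hx1, hx2, hx3⟩ := hx
    have hd : 0 < Nat.dist x.1 x.2 := Nat.dist_pos_of_ne hx3
    have hdH : 2 * (Nat.dist x.1 x.2 : ℝ) ≤ (u : ℝ) ^ (1 / 16 : ℝ) := by
      have : Nat.dist x.1 x.2 ≤ H := by unfold Nat.dist; omega
      have : (Nat.dist x.1 x.2 : ℝ) ≤ H := by exact_mod_cast this
      linarith
    have hb := hP (Nat.dist x.1 x.2) (a + min x.1 x.2) u hd hu hdH
    refine le_trans ?_ hb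
    have h4 : #((Ioc a (a + u)).filter fun k => (k + x.1).Prime ∧ (k + x.2).Prime) ≤
        #((Ioc (a + min x.1 x.2) (a + min x.1 x.2 + u)).filter fun n =>
          n.Prime ∧ (n + Nat.dist x.1 x.2).Prime) := by
      apply card_le_card_of_injOn (fun k => k + min x.1 x.2)
      · intro k hk
        rw [mem_coe, mem_filter, mem_Ioc] at hk
        rw [mem_coe, mem_filter, mem_Ioc]
        refine ⟨?_, ?_⟩
        · show a + min x.1 x.2 < k + min x.1 x.2 ∧ k + min x.1 x.2 ≤ a + min x.1 x.2 + u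
          omega
        · rcases le_total x.1 x.2 with h | h
          · have e1 : k + min x.1 x.2 = k + x.1 := by rw [min_eq_left h]
            have e2 : k + x.1 + Nat.dist x.1 x.2 = k + x.2 := by unfold Nat.dist; omega
            simp only [e1, e2]
            exact hk.2
          · have e1 : k + min x.1 x.2 = k + x.2 := by rw [min_eq_right h]
            have e2 : k + x.2 + Nat.dist x.1 x.2 = k + x.1 := by unfold Nat.dist; omega
            simp only [e1, e2]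
            exact ⟨hk.2.2, hk.2.1⟩
      · intro y _ z _ hyz
        simpa using hyz
    exact_mod_cast h4
  have h4 : ∑ x ∈ (Icc 1 H).offDiag, C2 * gg (2 * Nat.dist x.1 x.2) * u / Real.log u ^ 2 =
      C2 * u / Real.log u ^ 2 * ∑ x ∈ (Icc 1 H).offDiag, gg (2 * Nat.dist x.1 x.2) := by
    rw [mul_sum]
    refine sum_congr rfl fun x _ => ?_
    ring
  have h5 : C2 * u / Real.log u ^ 2 * ∑ x ∈ (Icc 1 H).offDiag, gg (2 * Nat.dist x.1 x.2) ≤
      C2 * u / Real.log u ^ 2 * (C1 * (H : ℝ) ^ 2) :=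
    mul_le_mul_of_nonneg_left (hA H) (by positivity)
  have h6 : 2 * (C2 * C1) * (H : ℝ) ^ 2 * u / Real.log u ^ 2 =
      2 * (C2 * u / Real.log u ^ 2 * (C1 * (H : ℝ) ^ 2)) := by ring
  rw [h6]
  linarith

/-- first moment in an interval -/
lemma firstI (a H w : ℕ) : H * pc (a + H) (a + w) ≤ ∑ m ∈ Ioc a (a + w), #(hit0 H m) := by
  have e : ∑ m ∈ Ioc a (a + w), #(hit0 H m) =
      ∑ j ∈ Icc 1 H, #((Ioc a (a + w)).filter fun m => (m + j).Prime) := by
    unfold hit0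
    simp only [card_filter]
    exact sum_comm
  rw [e]
  have h1 : ∀ j ∈ Icc 1 H, pc (a + H) (a + w) ≤ #((Ioc a (a + w)).filter fun m => (m + j).Prime) := by
    intro j hj
    rw [mem_Icc] at hj
    unfold pc
    apply card_le_card_of_injOn (fun q => q - j)
    · intro q hq
      rw [mem_coe, mem_filter, mem_Ioc] at hq
      rw [mem_coe, mem_filter, mem_Ioc]
      have e1 : q - j + j = q := by omega
      simp only [e1]
      exact ⟨⟨by omega, by omega⟩, hq.2⟩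
    · intro x hx y hy hxy
      rw [mem_coe, mem_filter, mem_Ioc] at hx hy
      simp only at hxy
      omega
  have h2 := card_nsmul_le_sum _ _ _ h1
  rw [Nat.card_Icc, Nat.add_sub_cancel, smul_eq_mul] at h2
  exact h2

/-- The local statement: many `m` between `u x` and `v x` with many primes in `(m, m + H]`. -/
theorem local_many : ∃ c δ : ℝ, 0 < c ∧ 0 < δ ∧ δ ≤ 1 ∧ ∀ β : ℝ, 1 < β → ∀ H : ℕ → ℕ,
    (∀ᶠ n : ℕ in atTop, n * Real.log β ≤ H n ∧ H n ≤ n ^ 2) → ∀ u v : ℝ, 0 < u → u < v → v ≤ 2 * u →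
    ∀ᶠ n : ℕ in atTop, ∃ a w : ℕ, u * β ^ n ≤ a ∧ (a : ℝ) + w + 1 ≤ v * β ^ n ∧
      δ * (v - u) * β ^ n ≤ #((Ioc a (a + w)).filter fun m =>
        c * H n / (n * Real.log β) ≤ (#(hit0 (H n) m) : ℝ)) := by
  obtain ⟨C, hC, u0, hB⟩ := blockI
  refine ⟨1 / 16, 1 / (512 * (1 + 4 * C)), by norm_num, by positivity, ?_, ?_⟩
  · rw [div_le_one (by positivity)]
    linarith
  intro β hβ H hH u v hu huv hv2
  have hvu : 0 < v - u := by linarith
  have hlb : 0 < Real.log β := Real.log_pos hβ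
  obtain ⟨X₀, hX₀, hpc⟩ := pc_window_lower (min ((v - u) / (40 * u)) (1 / 2)) (by positivity) (by
    have := min_le_right ((v - u) / (40 * u)) (1 / 2)
    linarith)
  have hpow : ∀ B : ℝ, 0 < B → ∀ᶠ n : ℕ in atTop, B * (n : ℝ) ^ 32 ≤ β ^ n := by
    intro B hB0
    have h1 := tendsto_pow_const_div_const_pow_of_one_lt 32 hβ
    have h2 : ∀ᶠ n : ℕ in atTop, (n : ℝ) ^ 32 / β ^ n < 1 / B :=
      h1.eventually_lt_const (by positivity)
    filter_upwards [h2] with n hn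
    rw [div_lt_iff₀ (by positivity), div_mul_eq_mul_div, one_mul, lt_div_iff₀ hB0] at hn
    linarith
  filter_upwards [hH, eventually_ge_atTop 2, hpow (2 ^ 18 / (v - u)) (by positivity),
    hpow (2 * (u0 + 1) / (v - u)) (by positivity), hpow ((X₀ + 3) / u) (by positivity),
    hpow (2 * u + 1) (by positivity), hpow (2 * (2 / (v - u)) ^ 2) (by positivity)] with
    n hn1 hn2 b1 b2 b3 b4 b5
  obtain ⟨hHl, hHu⟩ := hn1
  set x : ℝ := β ^ n with hx
  have hx0 : 0 < x := by positivity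
  have hnr : (2 : ℝ) ≤ n := by exact_mod_cast hn2
  have hn32 : (1 : ℝ) ≤ (n : ℝ) ^ 32 := one_le_pow₀ (by linarith)
  have hn2le : (n : ℝ) ^ 2 ≤ (n : ℝ) ^ 32 := pow_le_pow_right₀ (by linarith) (by norm_num)
  have hHr : (H n : ℝ) ≤ (n : ℝ) ^ 2 := by exact_mod_cast hHu
  set Λ : ℝ := n * Real.log β with hΛ
  have hΛ0 : 0 < Λ := by positivity
  have hlogx : Real.log x = Λ := by rw [hx, Real.log_pow]
  set y : ℝ := (v - u) * x with hy
  have hy0 : 0 < y := by positivity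
  -- consequences of the growth
  have c1 : 2 ^ 18 * (n : ℝ) ^ 32 ≤ y := by
    rw [div_mul_eq_mul_div, div_le_iff₀ hvu] at b1
    linarith
  have c2 : 2 * ((u0 : ℝ) + 1) ≤ y := by
    rw [div_mul_eq_mul_div, div_le_iff₀ hvu] at b2
    have : 2 * ((u0 : ℝ) + 1) * 1 ≤ 2 * ((u0 : ℝ) + 1) * (n : ℝ) ^ 32 :=
      mul_le_mul_of_nonneg_left hn32 (by positivity)
    linarith
  have c3 : (X₀ : ℝ) + 3 + (n : ℝ) ^ 2 ≤ u * x + (n : ℝ) ^ 2 ∧ ((X₀ : ℝ) + 3) * (n : ℝ) ^ 32 ≤ u * x := by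
    rw [div_mul_eq_mul_div, div_le_iff₀ hu] at b3
    have : ((X₀ : ℝ) + 3) * 1 ≤ ((X₀ : ℝ) + 3) * (n : ℝ) ^ 32 :=
      mul_le_mul_of_nonneg_left hn32 (by positivity)
    constructor <;> linarith
  have c4 : 2 * u ≤ x := by nlinarith
  have c5 : 2 * (2 / (v - u)) ^ 2 ≤ x := by
    have : 2 * (2 / (v - u)) ^ 2 * 1 ≤ 2 * (2 / (v - u)) ^ 2 * (n : ℝ) ^ 32 :=
      mul_le_mul_of_nonneg_left hn32 (by positivity)
    linarith
  have c6 : 1 ≤ x := one_le_pow₀ hβ.le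
  set a : ℕ := ⌈u * x⌉₊ with ha
  set w : ℕ := ⌊y⌋₊ - 2 with hw
  have ha1 : u * x ≤ a := Nat.le_ceil _
  have ha2 : (a : ℝ) < u * x + 1 := Nat.ceil_lt_add_one (by positivity)
  have hy8 : 8 ≤ y := by nlinarith
  have hfl : 8 ≤ ⌊y⌋₊ := Nat.le_floor (by exact_mod_cast hy8)
  have hw1 : (w : ℝ) = (⌊y⌋₊ : ℝ) - 2 := by
    rw [hw, Nat.cast_sub (by omega)]
    norm_num
  have hfl1 : (⌊y⌋₊ : ℝ) ≤ y := Nat.floor_le hy0.le
  have hfl2 : y < (⌊y⌋₊ : ℝ) + 1 := Nat.lt_floor_add_one y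
  have hwl : y / 2 ≤ w := by rw [hw1]; linarith
  have hwu : (w : ℝ) ≤ y - 2 := by rw [hw1]; linarith
  have hw0 : (0 : ℝ) < w := by linarith
  have hu0w : u0 ≤ w := by
    have : (u0 : ℝ) ≤ w := by linarith
    exact_mod_cast this
  have hHw : 2 * (H n : ℝ) ≤ (w : ℝ) ^ (1 / 16 : ℝ) := by
    have h1 : (2 * (n : ℝ) ^ 2) ^ 16 ≤ w := by
      have : (2 * (n : ℝ) ^ 2) ^ 16 = 2 ^ 16 * (n : ℝ) ^ 32 := by ring
      rw [this]
      linarith
    have h2 : ((2 * (n : ℝ) ^ 2) ^ 16) ^ (1 / 16 : ℝ) ≤ (w : ℝ) ^ (1 / 16 : ℝ) :=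
      Real.rpow_le_rpow (by positivity) h1 (by norm_num)
    rw [← Real.rpow_natCast, ← Real.rpow_mul (by positivity)] at h2
    norm_num at h2
    norm_num
    linarith
  have hH4 : 4 * (H n : ℝ) ≤ w := by nlinarith
  have hHwn : H n ≤ w := by
    have : (H n : ℝ) ≤ w := by
      have : (0 : ℝ) ≤ H n := Nat.cast_nonneg _
      linarith
    exact_mod_cast this
  refine ⟨a, w, ha1, ?_, ?_⟩
  · have : v * x = u * x + y := by rw [hy]; ring
    linarith
  -- logarithms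
  have hlogw : Λ / 2 ≤ Real.log w := by
    have h1 : √x ≤ w := by
      have h2 : √x ≤ y / 2 := by
        have h3 : √x * √x = x := Real.mul_self_sqrt hx0.le
        have h4 : 0 < √x := Real.sqrt_pos.2 hx0
        have h5 : 2 / (v - u) ≤ √x := by
          apply Real.le_sqrt_of_sq_le
          have : 0 ≤ (2 / (v - u)) ^ 2 := by positivity
          linarith
        rw [div_le_iff₀ hvu] at h5
        have h6 : y / 2 = (v - u) * √x * √x / 2 := by rw [hy, mul_assoc (v - u), h3]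
        rw [h6]
        nlinarith
      linarith
    have h2 := Real.log_le_log (Real.sqrt_pos.2 hx0) h1
    rwa [Real.log_sqrt hx0.le, hlogx] at h2
  have hlogw0 : 0 < Real.log w := by linarith [half_pos hΛ0]
  set b : ℕ := a + H n with hb
  have hbu : (b : ℝ) ≤ 2 * (u * x) := by
    rw [hb]
    push_cast
    have h1 : 3 * (n : ℝ) ^ 32 ≤ u * x := by
      have : (0 : ℝ) ≤ (X₀ : ℝ) * (n : ℝ) ^ 32 := by positivity
      nlinarith [c3.2]
    linarith
  have hbX : X₀ ≤ b := by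
    have : (X₀ : ℝ) ≤ b := by
      rw [hb]
      push_cast
      have : (0 : ℝ) ≤ H n := Nat.cast_nonneg _
      linarith [c3.1]
    exact_mod_cast this
  have hb1 : (1 : ℝ) < b := by
    have : (3 : ℝ) ≤ b := by exact_mod_cast hX₀.trans hbX
    linarith
  have hlogb : Real.log b ≤ 2 * Λ := by
    have h1 : (b : ℝ) ≤ x ^ 2 := by nlinarith
    have h2 := Real.log_le_log (by linarith) h1
    rw [Real.log_pow, hlogx] at h2
    exact_mod_cast h2
  have hlogb0 : 0 < Real.log b := Real.log_pos hb1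
  -- the primes
  have hwb : w - H n ≤ b := by
    have h1 : (w : ℝ) ≤ b := by
      rw [hb]
      push_cast
      have h2 : y ≤ u * x := by
        rw [hy]
        exact mul_le_mul_of_nonneg_right (by linarith) hx0.le
      have : (0 : ℝ) ≤ H n := Nat.cast_nonneg _
      linarith
    have : w ≤ b := by exact_mod_cast h1
    omega
  have hpcb := hpc b (w - H n) hbX hwb
  have hbw : b + (w - H n) = a + w := by omega
  rw [hbw, Nat.cast_sub hHwn] at hpcb
  have hpc1 : (w : ℝ) / (8 * Λ) ≤ pc b (a + w) := by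
    have h1 : 5 * min ((v - u) / (40 * u)) (1 / 2) * b ≤ w / 2 := by
      have h2 : min ((v - u) / (40 * u)) (1 / 2) ≤ (v - u) / (40 * u) := min_le_left _ _
      calc 5 * min ((v - u) / (40 * u)) (1 / 2) * b ≤ 5 * ((v - u) / (40 * u)) * (2 * (u * x)) := by
            gcongr
        _ = y / 4 := by rw [hy]; field_simp; ring
        _ ≤ w / 2 := by linarith
    have h2 : (w : ℝ) / 4 ≤ pc b (a + w) * Real.log b := by linarith
    have h3 : (pc b (a + w) : ℝ) * Real.log b ≤ pc b (a + w) * (2 * Λ) :=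
      mul_le_mul_of_nonneg_left hlogb (Nat.cast_nonneg _)
    rw [div_le_iff₀ (by positivity)]
    linarith
  -- moments
  set τ : ℝ := H n / (16 * Λ) with hτ
  have hHn0 : 0 < (H n : ℝ) := lt_of_lt_of_le hΛ0 hHl
  have hτ0 : 0 < τ := by positivity
  have hτe : 1 / 16 * (H n : ℝ) / (n * Real.log β) = τ := by
    rw [hτ, hΛ]
    field_simp
  rw [hτe]
  set G := (Ioc a (a + w)).filter fun m => τ ≤ (#(hit0 (H n) m) : ℝ) with hG
  have hfirst : 2 * τ * w ≤ ∑ m ∈ Ioc a (a + w), (#(hit0 (H n) m) : ℝ) := by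
    have h1 : ((H n * pc (a + H n) (a + w) : ℕ) : ℝ) ≤
        ((∑ m ∈ Ioc a (a + w), #(hit0 (H n) m) : ℕ) : ℝ) := by exact_mod_cast firstI a (H n) w
    push_cast at h1
    refine le_trans ?_ h1
    have h2 : (H n : ℝ) * (w / (8 * Λ)) ≤ H n * pc b (a + w) :=
      mul_le_mul_of_nonneg_left hpc1 hHn0.le
    have h3 : 2 * τ * w = H n * (w / (8 * Λ)) := by rw [hτ]; field_simp; ring
    rw [h3]
    exact h2
  have hlow : τ * w ≤ ∑ m ∈ G, (#(hit0 (H n) m) : ℝ) := by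
    have h1 := sum_filter_add_sum_filter_not (Ioc a (a + w)) (fun m => τ ≤ (#(hit0 (H n) m) : ℝ))
      (fun m => (#(hit0 (H n) m) : ℝ))
    have h2 : ∑ m ∈ (Ioc a (a + w)).filter (fun m => ¬ τ ≤ (#(hit0 (H n) m) : ℝ)),
        (#(hit0 (H n) m) : ℝ) ≤ w * τ := by
      have h3 : ∑ m ∈ (Ioc a (a + w)).filter (fun m => ¬ τ ≤ (#(hit0 (H n) m) : ℝ)),
          (#(hit0 (H n) m) : ℝ) ≤
          ∑ m ∈ (Ioc a (a + w)).filter (fun m => ¬ τ ≤ (#(hit0 (H n) m) : ℝ)), τ :=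
        sum_le_sum fun m hm => (not_le.1 (mem_filter.1 hm).2).le
      rw [sum_const, nsmul_eq_mul] at h3
      refine h3.trans (mul_le_mul_of_nonneg_right ?_ hτ0.le)
      have h4 := card_filter_le (Ioc a (a + w)) (fun m => ¬ τ ≤ (#(hit0 (H n) m) : ℝ))
      rw [Nat.card_Ioc, Nat.add_sub_cancel_left] at h4
      exact_mod_cast h4
    rw [← hG] at h1
    linarith
  have hCS : (∑ m ∈ G, (#(hit0 (H n) m) : ℝ)) ^ 2 ≤ #G * ∑ m ∈ G, (#(hit0 (H n) m) : ℝ) ^ 2 :=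
    sq_sum_le_card_mul_sum_sq
  have hsec : ∑ m ∈ G, (#(hit0 (H n) m) : ℝ) ^ 2 ≤ (1 + 4 * C) * (H n : ℝ) ^ 2 / Λ ^ 2 * w := by
    have h1 : ∑ m ∈ G, (#(hit0 (H n) m) : ℝ) ^ 2 ≤ ∑ m ∈ Ioc a (a + w), (#(hit0 (H n) m) : ℝ) ^ 2 :=
      sum_le_sum_of_subset_of_nonneg (filter_subset _ _) fun _ _ _ => by positivity
    refine h1.trans ((hB a (H n) w hu0w hHw).trans ?_)
    have h2 : C * (H n : ℝ) ^ 2 * w / Real.log w ^ 2 ≤ C * (H n : ℝ) ^ 2 * w / (Λ / 2) ^ 2 := by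
      apply div_le_div_of_nonneg_left (by positivity) (by positivity)
      exact pow_le_pow_left₀ (by positivity) hlogw 2
    have h3 : (w : ℝ) ≤ (H n : ℝ) ^ 2 / Λ ^ 2 * w := by
      have h4 : 1 ≤ (H n : ℝ) ^ 2 / Λ ^ 2 := by
        rw [one_le_div (by positivity)]
        exact pow_le_pow_left₀ hΛ0.le hHl 2
      nlinarith
    have h5 : (1 + 4 * C) * (H n : ℝ) ^ 2 / Λ ^ 2 * w =
        (H n : ℝ) ^ 2 / Λ ^ 2 * w + C * (H n : ℝ) ^ 2 * w / (Λ / 2) ^ 2 := by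
      field_simp
      ring
    rw [h5]
    linarith
  have hfin : (τ * w) ^ 2 ≤ #G * ((1 + 4 * C) * (H n : ℝ) ^ 2 / Λ ^ 2 * w) := by
    calc (τ * w) ^ 2 ≤ (∑ m ∈ G, (#(hit0 (H n) m) : ℝ)) ^ 2 := pow_le_pow_left₀ (by positivity) hlow 2
      _ ≤ _ := hCS
      _ ≤ _ := mul_le_mul_of_nonneg_left hsec (Nat.cast_nonneg _)
  have hGc : (w : ℝ) / (256 * (1 + 4 * C)) ≤ #G := by
    have h1 : (τ * w) ^ 2 = (w : ℝ) / (256 * (1 + 4 * C)) *
        ((1 + 4 * C) * (H n : ℝ) ^ 2 / Λ ^ 2 * w) := by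
      rw [hτ]
      field_simp
      ring
    rw [h1] at hfin
    exact le_of_mul_le_mul_right hfin (by positivity)
  refine le_trans ?_ hGc
  have h1 : 1 / (512 * (1 + 4 * C)) * (v - u) * x = (y / 2) / (256 * (1 + 4 * C)) := by
    rw [hy]
    field_simp
    ring
  rw [h1]
  exact div_le_div_of_nonneg_right hwl (by positivity)

end Pool.Agent.X28.SP
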