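import Pool.Agent.Y353.PS.Page

/-! A lower bound of Linnik's type for the primes in residue classes modulo powers of two. -/

set_option autoImplicit false

open Finset

namespace Pool.Agent.X28.SP

open Pool.Agent.H262R3.Lk Pool.Agent.W69.MH

/-- numbers `1` modulo `8` are squares modulo powers of two -/
lemma sq_mod (n : ℕ) (a : ℤ) (h : (8 : ℤ) ∣ a - 1) : ∃ b : ℤ, b % 2 = 1 ∧ (2 : ℤ) ^ (n + 3) ∣ b ^ 2 - a := by
  induction n with
  | zero =>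
    refine ⟨1, by norm_num, ?_⟩
    have : (1 : ℤ) ^ 2 - a = -(a - 1) := by ring
    rw [this]
    norm_num
    exact (Int.dvd_neg).2 h |>.trans (by simp)
  | succ n ih =>
    obtain ⟨b, hb, k, hk⟩ := ih
    rcases Int.even_or_odd' k with ⟨m, hm | hm⟩
    · refine ⟨b, hb, m, ?_⟩
      rw [hk, hm]
      ring
    · obtain ⟨r, hr⟩ : ∃ r, b = 2 * r + 1 := ⟨b / 2, by omega⟩
      refine ⟨b + 2 ^ (n + 2), ?_, m + r + 1 + 2 ^ n, ?_⟩
      · have : (2 : ℤ) ^ (n + 2) = 2 * 2 ^ (n + 1) := by ring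
        omega
      · have e : (b + 2 ^ (n + 2)) ^ 2 - a = (b ^ 2 - a) + 2 ^ (n + 3) * b + 2 ^ (n + 4) * 2 ^ n := by ring
        rw [e, hk, hm, hr]
        ring

/-- a real character modulo a power of two factors through `8` -/
lemma real_cond (ν : ℕ) (χ : DirichletCharacter ℂ (2 ^ ν)) (hχ : χ ^ 2 = 1) : χ.conductor ≤ 8 := by
  haveI : NeZero (2 ^ ν) := ⟨by positivity⟩
  rcases Nat.lt_or_ge ν 3 with h3 | h3
  · have h1 : χ.conductor ≤ 2 ^ ν := Nat.le_of_dvd (by positivity) χ.conductor_dvd_level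
    have h2 : 2 ^ ν ≤ 2 ^ 3 := Nat.pow_le_pow_right (by norm_num) h3.le
    omega
  · obtain ⟨n, rfl⟩ : ∃ n, ν = n + 3 := ⟨ν - 3, by omega⟩
    have hd : 8 ∣ 2 ^ (n + 3) := ⟨2 ^ n, by ring⟩
    apply Nat.sInf_le
    rw [DirichletCharacter.mem_conductorSet_iff, DirichletCharacter.factorsThrough_iff_ker_unitsMap hd]
    intro u hu
    rw [MonoidHom.mem_ker] at hu ⊢
    set a : ℤ := ((u : ZMod (2 ^ (n + 3))).val : ℤ) with ha
    have hacast : ((a : ℤ) : ZMod (2 ^ (n + 3))) = u := by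
      rw [ha]
      push_cast
      exact ZMod.natCast_zmod_val _
    have ha8 : (8 : ℤ) ∣ a - 1 := by
      have h1 : ((a : ℤ) : ZMod 8) = 1 := by
        have h2 := congrArg (fun v : (ZMod 8)ˣ => (v : ZMod 8)) hu
        simp only [ZMod.unitsMap_def, Units.coe_map, Units.val_one] at h2
        rw [← h2, ha]
        push_cast
        rw [MonoidHom.coe_coe, ZMod.castHom_apply, ZMod.cast_eq_val]
      have h3 : ((a - 1 : ℤ) : ZMod 8) = 0 := by push_cast; rw [h1]; ring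
      exact_mod_cast (ZMod.intCast_zmod_eq_zero_iff_dvd (a - 1) 8).1 h3
    obtain ⟨b, hb, hba⟩ := sq_mod n a ha8
    have hb2 : ((b : ℤ) : ZMod (2 ^ (n + 3))) ^ 2 = u := by
      have h1 : ((b ^ 2 - a : ℤ) : ZMod (2 ^ (n + 3))) = 0 := by
        rw [ZMod.intCast_zmod_eq_zero_iff_dvd]
        exact_mod_cast hba
      push_cast at h1
      rw [hacast] at h1
      exact sub_eq_zero.1 h1
    have hbu : IsUnit ((b : ℤ) : ZMod (2 ^ (n + 3))) := by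
      have : IsUnit (((b : ℤ) : ZMod (2 ^ (n + 3))) ^ 2) := by rw [hb2]; exact u.isUnit
      exact (isUnit_pow_iff (by norm_num)).1 this
    have h4 : χ (u : ZMod (2 ^ (n + 3))) = 1 := by
      rw [← hb2, map_pow]
      have h5 : (χ ^ 2) ((b : ℤ) : ZMod (2 ^ (n + 3))) = 1 := by
        rw [hχ]
        exact MulChar.one_apply hbu
      rw [MulChar.pow_apply' _ (by norm_num)] at h5
      exact h5
    ext
    rw [MulChar.coe_toUnitHom]
    simpa using h4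

/-- the lower bound of Linnik's type -/
theorem lin2 : ∃ (K : ℕ) (c : ℝ), 1 ≤ K ∧ 0 < c ∧ ∃ z0 : ℕ, ∀ z : ℕ, z0 ≤ z → ∀ ν b : ℕ,
    (2 ^ ν) ^ 16 ≤ z → b.Coprime (2 ^ ν) →
    c / ((2 ^ ν).totient : ℝ) ≤
      ∑ p ∈ (Ioc z (z ^ K)).filter (fun p => p.Prime ∧ p ≡ b [MOD 2 ^ ν]), (1 : ℝ) / p := by
  have hSUM := Pool.Agent.W933.MHSum.sum_
  have hFL := Pool.Agent.W333.MH.fl
  have hDIFF := Pool.Agent.W505.MH.diff hFL hSUM
  have hA0 := Pool.Agent.W505.MH.a0 hFL hSUM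
  have hCLS := Pool.Agent.W193.MH.Cls.cls hSUM
  have hB0 := Pool.Agent.H262R3.Lk.b0 Pool.Agent.W505.MH.bt hSUM
  have hB2 := Pool.Agent.W440.MH.b2 hSUM
  have hALG := Pool.Agent.H262R3.Lk.alg hSUM
  have hLIN := Pool.Agent.Y353.PS.linP hSUM hDIFF hA0 hB0 hB2 hALG Pool.Agent.W215.MH.eul hCLS
    Pool.Agent.W701.MH.abs_
  have hTAIL := Pool.Agent.W803.MH.tail Pool.Agent.W505.MH.bt hSUM
  obtain ⟨A, c, lam, hA, hc, hlam, hlam2, z1, h1⟩ := hLIN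
  obtain ⟨K, z2, hK, h2⟩ := hTAIL A (c / 2) hA (by positivity)
  have hK0 : (0 : ℝ) < (K : ℝ) := by exact_mod_cast hK
  refine ⟨K, c / (2 * (K : ℝ) ^ 3), hK, by positivity, ?_⟩
  obtain ⟨z3, h3⟩ := Pool.Agent.H262R3.Lk.swq 1
  obtain ⟨z5, h5ev⟩ := Filter.eventually_atTop.1
    ((Real.tendsto_log_atTop.comp (tendsto_natCast_atTop_atTop (R := ℝ))).eventually_ge_atTop 8)
  refine ⟨max (max (max z1 z2) (max z3 z5)) 3, ?_⟩
  intro z hz ν b hq hb
  simp only [max_le_iff] at hz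
  obtain ⟨⟨⟨hz1, hz2⟩, ⟨hz3, hz5⟩⟩, hz4⟩ := hz
  have hlog8 : (8 : ℝ) ≤ Real.log z := h5ev z hz5
  have hlog : (1 : ℝ) ≤ Real.log z := by linarith
  have hAlog : (1 : ℝ) ≤ A * Real.log z := by nlinarith
  have hs0 : (0 : ℝ) < 1 / (A * Real.log z) := by positivity
  have hs1 : 1 / (A * Real.log z) ≤ (1 : ℝ) := by
    rw [div_le_one (by linarith)]
    exact hAlog
  obtain ⟨q, hqdef⟩ : ∃ q : ℕ, q = 2 ^ ν := ⟨_, rfl⟩
  have hqpos : 0 < 2 ^ ν := by positivity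
  haveI : NeZero (2 ^ ν) := ⟨hqpos.ne'⟩
  have h8 : (2 ^ ν) ^ 8 ≤ z := (Nat.pow_le_pow_right hqpos (by norm_num)).trans hq
  have hqz : 2 ^ ν ≤ z := (Nat.le_self_pow (by norm_num) _).trans h8
  have hreal : ∀ χ : DirichletCharacter ℂ (2 ^ ν), χ ≠ 1 → χ ^ 2 = 1 →
        lam ≤ ‖Lj z χ 0 (1 / (A * Real.log z))‖ := by
    intro χ hχ hχ2
    have hc0 : χ.conductor ≠ 0 := χ.conductor_ne_zero
    have hc1 : χ.conductor ≠ 1 := fun h => hχ (χ.eq_one_iff_conductor_eq_one.2 h)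
    have hc8 : (χ.conductor : ℝ) ≤ Real.log z ^ 1 := by
      have : (χ.conductor : ℝ) ≤ 8 := by exact_mod_cast real_cond ν χ hχ2
      rw [pow_one]
      linarith
    have g1 := h3 z hz3 χ.conductor (by omega) hc8 χ.primitiveCharacter
      χ.primitiveCharacter_isPrimitive _ hs0 hs1
    have g2 := Pool.Agent.Y835.SC.Lj_lift (z := z) χ.conductor_dvd_level hqz
      χ.primitiveCharacter (1 / (A * Real.log z))
    rw [DirichletCharacter.changeLevel_primitiveCharacter] at g2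
    rw [g2]
    linarith
  have hlow := (h1 z (2 ^ ν) hz1 h8).1 b hb hreal
  have hup := h2 z (2 ^ ν) b hz2 hqpos h8 hb
  have hphi : (0 : ℝ) < ((2 ^ ν).totient : ℝ) := by
    exact_mod_cast Nat.totient_pos.2 hqpos
  have hL3 : (0 : ℝ) < (Real.log z) ^ 3 := by positivity
  obtain ⟨S, hS⟩ : ∃ S : ℝ, S = ∑ p ∈ (Ioc z (z ^ K)).filter
    (fun p => p.Prime ∧ p ≡ b [MOD (2 ^ ν)]), (1 : ℝ) / p := ⟨_, rfl⟩
  rw [← hS] at hup ⊢
  have h5 : c * (Real.log z) ^ 3 / ((2 ^ ν).totient : ℝ) ≤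
      c / 2 * (Real.log z) ^ 3 / ((2 ^ ν).totient : ℝ) + (K : ℝ) ^ 3 * (Real.log z) ^ 3 * S :=
    le_trans hlow hup
  have h6 : (c / 2 / ((2 ^ ν).totient : ℝ)) * (Real.log z) ^ 3 ≤
      ((K : ℝ) ^ 3 * S) * (Real.log z) ^ 3 := by
    have e1 : c * (Real.log z) ^ 3 / ((2 ^ ν).totient : ℝ) =
        2 * ((c / 2 / ((2 ^ ν).totient : ℝ)) * (Real.log z) ^ 3) := by
      field_simp
    have e2 : c / 2 * (Real.log z) ^ 3 / ((2 ^ ν).totient : ℝ) =
        (c / 2 / ((2 ^ ν).totient : ℝ)) * (Real.log z) ^ 3 := by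
      field_simp
    rw [e1, e2] at h5
    nlinarith
  have h7 : c / 2 / ((2 ^ ν).totient : ℝ) ≤ (K : ℝ) ^ 3 * S :=
    le_of_mul_le_mul_right h6 hL3
  have hK3 : (0 : ℝ) < (K : ℝ) ^ 3 := by positivity
  have e3 : c / (2 * (K : ℝ) ^ 3) / ((2 ^ ν).totient : ℝ) =
      (c / 2 / ((2 ^ ν).totient : ℝ)) / (K : ℝ) ^ 3 := by
    field_simp
  rw [e3, div_le_iff₀ hK3]
  linarith

end Pool.Agent.X28.SP
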