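import Pool.Agent.X28.SP.Blocks
import Pool.Agent.X28.SP.Lin2

/-! Primes just above the multiples of a power of two. -/

set_option autoImplicit false

open Finset

namespace Pool.Agent.X28.SP

/-- the first moment -/
lemma firstM : ∃ (K : ℕ) (c : ℝ), 1 ≤ K ∧ 0 < c ∧ ∃ n0 : ℕ, 2 ≤ n0 ∧ ∀ n r H : ℕ, n0 ≤ n → r < 2 ^ n →
    n ≤ H → H ^ 2 ≤ 2 ^ n →
    c * H ≤ ∑ k ∈ Ioc (2 ^ (15 * n - 1)) (2 ^ (16 * K * n)), (#(hitP n r H k) : ℝ) / k := by
  obtain ⟨K, c, hK, hc, z0, h0⟩ := lin2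
  refine ⟨K, c / 4, hK, by positivity, max z0 2, le_max_right _ _, ?_⟩
  intro n r H hn hr hnH hH
  have hn2 : 2 ≤ n := by omega
  have hz0 : z0 ≤ (2 ^ n) ^ 16 := by
    have h1 : n < 2 ^ n := Nat.lt_two_pow_self
    have h2 : 2 ^ n ≤ (2 ^ n) ^ 16 := Nat.le_self_pow (by norm_num) _
    omega
  obtain ⟨q, hq⟩ : ∃ q : ℕ, q = 2 ^ n := ⟨_, rfl⟩
  have hq4 : 4 ≤ q := by
    have : 2 ^ 2 ≤ 2 ^ n := Nat.pow_le_pow_right (by norm_num) hn2
    omega
  have hHq : H ≤ q := by
    have : H ≤ H ^ 2 := Nat.le_self_pow (by norm_num) _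
    omega
  set T := Ioc (2 ^ (15 * n - 1)) (2 ^ (16 * K * n)) with hT
  set J := (Icc 1 H).filter fun j => (r + j) % 2 = 1 with hJ
  -- swap the sums
  have hswap : ∑ k ∈ T, (#(hitP n r H k) : ℝ) / k =
      ∑ j ∈ Icc 1 H, ∑ k ∈ T.filter (fun k => (k * 2 ^ n + (r + j)).Prime), (1 : ℝ) / k := by
    have e1 : ∀ k ∈ T, (#(hitP n r H k) : ℝ) / k =
        ∑ j ∈ Icc 1 H, if (k * 2 ^ n + (r + j)).Prime then (1 : ℝ) / k else 0 := by
      intro k _
      unfold hitP
      rw [← sum_filter, sum_const, nsmul_eq_mul]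
      ring
    rw [sum_congr rfl e1, sum_comm]
    refine sum_congr rfl fun j _ => ?_
    rw [sum_filter]
  rw [hswap]
  have hJsub : J ⊆ Icc 1 H := filter_subset _ _
  have hmono : ∑ j ∈ J, ∑ k ∈ T.filter (fun k => (k * 2 ^ n + (r + j)).Prime), (1 : ℝ) / k ≤
      ∑ j ∈ Icc 1 H, ∑ k ∈ T.filter (fun k => (k * 2 ^ n + (r + j)).Prime), (1 : ℝ) / k :=
    sum_le_sum_of_subset_of_nonneg hJsub fun _ _ _ => sum_nonneg fun _ _ => by positivity
  refine le_trans ?_ hmono
  have hJc : (H : ℝ) / 4 ≤ #J := by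
    have h1 : H ≤ 2 * #J + 1 := by
      have h2 : #(Icc 1 H) ≤ #J + #J + 1 := by
        have h3 : Icc 1 H ⊆ J ∪ (insert 1 (J.image fun j => j + 1)) := by
          intro j hj
          rw [mem_Icc] at hj
          rw [mem_union, mem_insert, mem_image]
          by_cases h4 : (r + j) % 2 = 1
          · left
            rw [hJ, mem_filter, mem_Icc]
            exact ⟨hj, h4⟩
          · right
            rcases Nat.lt_or_ge j 2 with h5 | h5
            · left; omega
            · right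
              refine ⟨j - 1, ?_, by omega⟩
              rw [hJ, mem_filter, mem_Icc]
              exact ⟨by omega, by omega⟩
        refine (card_le_card h3).trans ((card_union_le _ _).trans ?_)
        have h4 := card_insert_le 1 (J.image fun j => j + 1)
        have h5 := card_image_le (s := J) (f := fun j => j + 1)
        omega
      rw [Nat.card_Icc, Nat.add_sub_cancel] at h2
      omega
    have h2 : (H : ℝ) ≤ 2 * #J + 1 := by exact_mod_cast h1
    have h3 : (2 : ℝ) ≤ H := by exact_mod_cast (hn2.trans hnH)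
    linarith
  have hterm : ∀ j ∈ J, c ≤ ∑ k ∈ T.filter (fun k => (k * 2 ^ n + (r + j)).Prime), (1 : ℝ) / k := by
    intro j hj
    rw [hJ, mem_filter, mem_Icc] at hj
    obtain ⟨⟨hj1, hj2⟩, hj3⟩ := hj
    obtain ⟨b, hb⟩ : ∃ b : ℕ, b = r + j := ⟨_, rfl⟩
    have hbcop : b.Coprime (2 ^ n) := by
      apply Nat.Coprime.pow_right
      rw [Nat.coprime_two_right, Nat.odd_iff, hb]
      exact hj3
    have hb2q : b < 2 * q := by omega
    have h1 := h0 ((2 ^ n) ^ 16) hz0 n b le_rfl hbcop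
    rw [← hb]
    have hphi : ((2 ^ n).totient : ℝ) ≤ (2 : ℝ) ^ n := by exact_mod_cast Nat.totient_le (2 ^ n)
    have hphi0 : (0 : ℝ) < ((2 ^ n).totient : ℝ) := by
      exact_mod_cast Nat.totient_pos.2 (by positivity)
    set Q := (Ioc ((2 ^ n) ^ 16) (((2 ^ n) ^ 16) ^ K)).filter
      (fun p => p.Prime ∧ p ≡ b [MOD 2 ^ n]) with hQ
    have h2 : c ≤ ∑ p ∈ Q, (2 : ℝ) ^ n / p := by
      have h3 : c ≤ (2 : ℝ) ^ n * ∑ p ∈ Q, (1 : ℝ) / p := by
        have h4 : c / (2 : ℝ) ^ n ≤ c / ((2 ^ n).totient : ℝ) :=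
          div_le_div_of_nonneg_left hc.le hphi0 hphi
        have h5 := h4.trans h1
        rw [div_le_iff₀ (by positivity)] at h5
        linarith
      refine h3.trans (le_of_eq ?_)
      rw [mul_sum]
      refine sum_congr rfl fun p _ => ?_
      ring
    refine h2.trans ?_
    have hprop : ∀ p ∈ Q, ∃ k : ℕ, p = k * q + b ∧ k = (p - b) / q ∧ k ∈ T := by
      intro p hp
      rw [hQ, mem_filter, mem_Ioc] at hp
      obtain ⟨⟨hp1, hp2⟩, hp3, hp4⟩ := hp
      have hq16 : 2 * q ≤ q ^ 16 := by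
        calc 2 * q ≤ q * q := Nat.mul_le_mul_right _ (by omega)
          _ = q ^ 2 := by ring
          _ ≤ q ^ 16 := Nat.pow_le_pow_right (by omega) (by norm_num)
      rw [← hq] at hp1 hp2 hp4
      have hbp : b ≤ p := by omega
      have hdv : q ∣ p - b := (Nat.modEq_iff_dvd' hbp).1 hp4.symm
      obtain ⟨k, hk⟩ := hdv
      have hk2 : p = k * q + b := by rw [mul_comm]; omega
      refine ⟨k, hk2, ?_, ?_⟩
      · rw [hk, Nat.mul_div_cancel_left _ (by omega)]
      · rw [hT, mem_Ioc]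
        constructor
        · by_contra hcon
          push Not at hcon
          have h3 : 2 * 2 ^ (15 * n - 1) = q ^ 15 := by
            rw [hq, ← pow_mul, ← pow_succ']
            congr 1
            omega
          have h4 : 2 * k ≤ q ^ 15 := by omega
          have h5 : q ^ 16 = q ^ 15 * q := by ring
          have h6 : 4 ≤ q ^ 15 := by
            calc 4 ≤ q := hq4
              _ ≤ q ^ 15 := Nat.le_self_pow (by norm_num) _
          nlinarith
        · have h3 : k ≤ p := by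
            have : k ≤ k * q := Nat.le_mul_of_pos_right _ (by omega)
            omega
          have h4 : (q ^ 16) ^ K = 2 ^ (16 * K * n) := by
            rw [hq, ← pow_mul, ← pow_mul]
            congr 1
            ring
          omega
    calc ∑ p ∈ Q, (2 : ℝ) ^ n / p ≤ ∑ p ∈ Q, (1 : ℝ) / (((p - b) / q : ℕ) : ℝ) := by
          apply sum_le_sum
          intro p hp
          obtain ⟨k, hk1, hk2, hk3⟩ := hprop p hp
          rw [← hk2]
          have hk0 : 0 < k := by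
            rw [hT, mem_Ioc] at hk3
            exact lt_of_le_of_lt (Nat.zero_le _) hk3.1
          have hk0' : (0 : ℝ) < k := by exact_mod_cast hk0
          have hqr : ((q : ℕ) : ℝ) = (2 : ℝ) ^ n := by rw [hq]; push_cast; rfl
          have hp0 : (0 : ℝ) < p := by
            have : 0 < p := by
              rw [hk1]
              have : 0 < k * q := Nat.mul_pos hk0 (by omega)
              omega
            exact_mod_cast this
          rw [div_le_div_iff₀ hp0 hk0', one_mul]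
          have h3 : k * q ≤ p := by omega
          have h4 : (k : ℝ) * q ≤ p := by exact_mod_cast h3
          rw [← hqr]
          linarith
      _ = ∑ k ∈ Q.image (fun p => (p - b) / q), (1 : ℝ) / k := by
          rw [sum_image]
          intro p hp p' hp' hpp
          obtain ⟨k, hk1, hk2, _⟩ := hprop p hp
          obtain ⟨k', hk1', hk2', _⟩ := hprop p' hp'
          simp only at hpp
          rw [← hk2, ← hk2'] at hpp
          rw [hk1, hk1', hpp]
      _ ≤ ∑ k ∈ T.filter (fun k => (k * 2 ^ n + b).Prime), (1 : ℝ) / k := by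
          apply sum_le_sum_of_subset_of_nonneg
          · intro k hk
            obtain ⟨p, hp, hpk⟩ := mem_image.1 hk
            obtain ⟨k', hk1, hk2, hk3⟩ := hprop p hp
            rw [← hpk, ← hk2, mem_filter]
            refine ⟨hk3, ?_⟩
            rw [← hq, ← hk1]
            rw [hQ, mem_filter] at hp
            exact hp.2.1
          · intro _ _ _
            positivity
  have h3 := card_nsmul_le_sum J _ c hterm
  rw [nsmul_eq_mul] at h3
  nlinarith

/-- **Primes just above the multiples of a power of two.** -/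
theorem multiples : ∃ (L : ℕ) (c : ℝ), 0 < c ∧ ∃ n0 : ℕ, ∀ n r H : ℕ, n0 ≤ n → r < 2 ^ n → n ≤ H →
    H ^ 2 ≤ 2 ^ n → c * n ≤ ∑ k ∈ (Icc 1 (2 ^ (L * n))).filter
      (fun k => c * H / n ≤ (#(hitP n r H k) : ℝ)), (1 : ℝ) / k := by
  obtain ⟨K, c, hK, hc, n1, hn1, h1⟩ := firstM
  obtain ⟨C, hC, u0, h2⟩ := block
  have hK1 : (1 : ℝ) ≤ K := by exact_mod_cast hK
  set D : ℝ := 16 * K * (1 + C) with hD
  have hD1 : 1 ≤ D := by nlinarith
  refine ⟨16 * K, min (c / (32 * K)) (c ^ 2 / (4 * D)), by positivity, max n1 (max u0 10), ?_⟩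
  intro n r H hn hr hnH hH
  have hn10 : 10 ≤ n := by omega
  have hnr : (10 : ℝ) ≤ n := by exact_mod_cast hn10
  have hn0 : (0 : ℝ) < n := by linarith
  have hHr : (n : ℝ) ≤ H := by exact_mod_cast hnH
  have hH0 : (0 : ℝ) < H := by linarith
  have hfirst := h1 n r H (by omega) hr hnH hH
  set c' := min (c / (32 * K)) (c ^ 2 / (4 * D)) with hc'
  have hc'1 : c' ≤ c / (32 * K) := min_le_left _ _
  have hc'2 : c' ≤ c ^ 2 / (4 * D) := min_le_right _ _
  have hc'0 : 0 < c' := by positivity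
  have hKn : 15 * n - 1 ≤ 16 * K * n := by
    have : 16 * n ≤ 16 * K * n := by nlinarith
    omega
  obtain ⟨m, hm⟩ : ∃ m : ℕ, 16 * K * n = (15 * n - 1) + m := ⟨16 * K * n - (15 * n - 1), by omega⟩
  set T := Ioc (2 ^ (15 * n - 1)) (2 ^ (16 * K * n)) with hT
  have hmle : (m : ℝ) ≤ 16 * K * n := by
    have : m ≤ 16 * K * n := by omega
    exact_mod_cast this
  -- total weight
  have hW : ∑ k ∈ T, (1 : ℝ) / k ≤ 16 * K * n := by
    have h3 := blocks (fun _ => 1) (fun _ => by norm_num) 1 (15 * n - 1) m (by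
      intro i _ _
      simp)
    rw [← hm] at h3
    refine h3.trans ?_
    linarith
  -- second moment
  have hS : ∑ k ∈ T, (#(hitP n r H k) : ℝ) ^ 2 / k ≤ D * H ^ 2 / n := by
    have h3 := blocks (fun k => (#(hitP n r H k) : ℝ) ^ 2) (fun _ => by positivity)
      ((1 + C) * (H : ℝ) ^ 2 / n ^ 2) (15 * n - 1) m (by
      intro i hi _
      have hu : u0 ≤ 2 ^ i := by
        have h4 : i < 2 ^ i := Nat.lt_two_pow_self
        omega
      have hlogi : (n : ℝ) ≤ Real.log ((2 ^ i : ℕ) : ℝ) := by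
        push_cast
        rw [Real.log_pow]
        have h4 : (14 * n : ℝ) ≤ i := by
          have : 14 * n ≤ i := by omega
          exact_mod_cast this
        have := Real.log_two_gt_d9
        nlinarith
      have hHu : 2 * (H : ℝ) ≤ ((2 ^ i : ℕ) : ℝ) ^ (1 / 16 : ℝ) := by
        have h4 : ((2 * H : ℕ) : ℝ) ^ 16 ≤ ((2 ^ i : ℕ) : ℝ) := by
          have h5 : (2 * H) ^ 16 ≤ 2 ^ i := by
            calc (2 * H) ^ 16 = 2 ^ 16 * (H ^ 2) ^ 8 := by ring
              _ ≤ 2 ^ 16 * (2 ^ n) ^ 8 := Nat.mul_le_mul_left _ (Nat.pow_le_pow_left hH 8)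
              _ = 2 ^ (16 + n * 8) := by rw [pow_add, pow_mul]
              _ ≤ 2 ^ i := Nat.pow_le_pow_right (by norm_num) (by omega)
          exact_mod_cast h5
        have h6 : (((2 * H : ℕ) : ℝ) ^ 16) ^ (1 / 16 : ℝ) ≤ ((2 ^ i : ℕ) : ℝ) ^ (1 / 16 : ℝ) :=
          Real.rpow_le_rpow (by positivity) h4 (by norm_num)
        rw [← Real.rpow_natCast, ← Real.rpow_mul (by positivity)] at h6
        norm_num at h6
        norm_num
        exact h6
      have h4 := h2 n r H (2 ^ i) hu hHu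
      refine h4.trans ?_
      have h5 : C * (H : ℝ) ^ 2 * ((2 ^ i : ℕ) : ℝ) / Real.log ((2 ^ i : ℕ) : ℝ) ^ 2 ≤
          C * (H : ℝ) ^ 2 * ((2 ^ i : ℕ) : ℝ) / n ^ 2 := by
        apply div_le_div_of_nonneg_left (by positivity) (by positivity)
        exact pow_le_pow_left₀ hn0.le hlogi 2
      have h6 : ((2 ^ i : ℕ) : ℝ) ≤ (H : ℝ) ^ 2 * ((2 ^ i : ℕ) : ℝ) / n ^ 2 := by
        rw [le_div_iff₀ (by positivity)]
        have h7 : (n : ℝ) ^ 2 ≤ (H : ℝ) ^ 2 := pow_le_pow_left₀ hn0.le hHr 2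
        have h8 : (0 : ℝ) ≤ ((2 ^ i : ℕ) : ℝ) := Nat.cast_nonneg _
        nlinarith
      have e : (1 + C) * (H : ℝ) ^ 2 / n ^ 2 * 2 ^ i =
          (H : ℝ) ^ 2 * ((2 ^ i : ℕ) : ℝ) / n ^ 2 + C * (H : ℝ) ^ 2 * ((2 ^ i : ℕ) : ℝ) / n ^ 2 := by
        push_cast; ring
      rw [e]
      linarith)
    rw [← hm] at h3
    refine h3.trans ?_
    have h4 : (1 + C) * (H : ℝ) ^ 2 / n ^ 2 * m ≤ (1 + C) * (H : ℝ) ^ 2 / n ^ 2 * (16 * K * n) :=
      mul_le_mul_of_nonneg_left hmle (by positivity)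
    refine h4.trans (le_of_eq ?_)
    rw [hD]
    field_simp
  -- the good multiples
  set τ : ℝ := c' * H / n with hτ
  have hτ0 : 0 < τ := by positivity
  set G := T.filter fun k => τ ≤ (#(hitP n r H k) : ℝ) with hG
  have hlow : c * H / 2 ≤ ∑ k ∈ G, (#(hitP n r H k) : ℝ) / k := by
    have h3 := sum_filter_add_sum_filter_not T (fun k => τ ≤ (#(hitP n r H k) : ℝ))
      (fun k => (#(hitP n r H k) : ℝ) / k)
    have h4 : ∑ k ∈ T.filter (fun k => ¬ τ ≤ (#(hitP n r H k) : ℝ)), (#(hitP n r H k) : ℝ) / k ≤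
        c * H / 2 := by
      calc ∑ k ∈ T.filter (fun k => ¬ τ ≤ (#(hitP n r H k) : ℝ)), (#(hitP n r H k) : ℝ) / k
          ≤ ∑ k ∈ T.filter (fun k => ¬ τ ≤ (#(hitP n r H k) : ℝ)), τ * (1 / k) := by
            apply sum_le_sum
            intro k hk
            rw [mem_filter] at hk
            have h5 := (not_le.1 hk.2).le
            rw [mul_one_div]
            exact div_le_div_of_nonneg_right h5 (Nat.cast_nonneg _)
        _ ≤ ∑ k ∈ T, τ * (1 / (k : ℝ)) :=
            sum_le_sum_of_subset_of_nonneg (filter_subset _ _) fun _ _ _ => by positivity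
        _ = τ * ∑ k ∈ T, (1 : ℝ) / k := by rw [mul_sum]
        _ ≤ τ * (16 * K * n) := mul_le_mul_of_nonneg_left hW hτ0.le
        _ = c' * (16 * K * H) := by rw [hτ]; field_simp
        _ ≤ c / (32 * K) * (16 * K * H) := mul_le_mul_of_nonneg_right hc'1 (by positivity)
        _ = c * H / 2 := by field_simp; ring
    rw [← hG] at h3
    linarith
  have hCS : (∑ k ∈ G, (#(hitP n r H k) : ℝ) / k) ^ 2 ≤
      (∑ k ∈ G, (1 : ℝ) / k) * ∑ k ∈ G, (#(hitP n r H k) : ℝ) ^ 2 / k := by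
    have h3 := sum_mul_sq_le_sq_mul_sq G (fun k : ℕ => √((1 : ℝ) / k))
      (fun k : ℕ => (#(hitP n r H k) : ℝ) * √((1 : ℝ) / k))
    have e1 : ∀ k : ℕ, √((1 : ℝ) / k) * ((#(hitP n r H k) : ℝ) * √((1 : ℝ) / k)) =
        (#(hitP n r H k) : ℝ) / k := by
      intro k
      have : √((1 : ℝ) / k) * √((1 : ℝ) / k) = 1 / k := Real.mul_self_sqrt (by positivity)
      calc √((1 : ℝ) / k) * ((#(hitP n r H k) : ℝ) * √((1 : ℝ) / k)) =
          (#(hitP n r H k) : ℝ) * (√((1 : ℝ) / k) * √((1 : ℝ) / k)) := by ring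
        _ = _ := by rw [this]; ring
    have e2 : ∀ k : ℕ, √((1 : ℝ) / k) ^ 2 = 1 / k := fun k => Real.sq_sqrt (by positivity)
    have e3 : ∀ k : ℕ, ((#(hitP n r H k) : ℝ) * √((1 : ℝ) / k)) ^ 2 =
        (#(hitP n r H k) : ℝ) ^ 2 / k := by
      intro k
      rw [mul_pow, e2]
      ring
    simp only [e1, e2, e3] at h3
    exact h3
  have hG0 : 0 ≤ ∑ k ∈ G, (1 : ℝ) / k := sum_nonneg fun _ _ => by positivity
  have hGS : ∑ k ∈ G, (#(hitP n r H k) : ℝ) ^ 2 / k ≤ D * H ^ 2 / n := by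
    refine le_trans ?_ hS
    exact sum_le_sum_of_subset_of_nonneg (filter_subset _ _) fun _ _ _ => by positivity
  have hfin : c ^ 2 / (4 * D) * n ≤ ∑ k ∈ G, (1 : ℝ) / k := by
    have h3 : (c * H / 2) ^ 2 ≤ (∑ k ∈ G, (1 : ℝ) / k) * (D * H ^ 2 / n) := by
      calc (c * H / 2) ^ 2 ≤ (∑ k ∈ G, (#(hitP n r H k) : ℝ) / k) ^ 2 :=
            pow_le_pow_left₀ (by positivity) hlow 2
        _ ≤ _ := hCS
        _ ≤ _ := mul_le_mul_of_nonneg_left hGS hG0
    have h4 : (c * H / 2) ^ 2 = c ^ 2 / (4 * D) * n * (D * H ^ 2 / n) := by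
      field_simp
      ring
    rw [h4] at h3
    exact le_of_mul_le_mul_right h3 (by positivity)
  have h5 : c' * n ≤ ∑ k ∈ G, (1 : ℝ) / k :=
    (mul_le_mul_of_nonneg_right hc'2 hn0.le).trans hfin
  refine h5.trans ?_
  apply sum_le_sum_of_subset_of_nonneg
  · intro k hk
    rw [hG, mem_filter, hT, mem_Ioc] at hk
    rw [mem_filter, mem_Icc]
    exact ⟨⟨lt_of_le_of_lt (Nat.zero_le _) hk.1.1, hk.1.2⟩, hk.2⟩
  · intro _ _ _
    positivity

end Pool.Agent.X28.SP
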