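import Pool.Agent.X28.SP.Avg
import Pool.Agent.Y843.HG.Prs
import Pool.Agent.Helper602.Est

/-! Primes in most translates of a sparse set: the second moment. -/

set_option autoImplicit false

open Finset

namespace Pool.Agent.X28.SP
open Pool.Agent.H197R2.PG

/-- the vectors with entries in `[1, X]` -/
def Box (r X : ℕ) : Finset (Fin r → ℕ) := Fintype.piFinset fun _ => Icc 1 X

/-- the elements `s` of `S` with all `s + h j` prime -/
def hit (S : Finset ℕ) {r : ℕ} (h : Fin r → ℕ) : Finset ℕ := S.filter fun s => ∀ j, (s + h j).Prime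

lemma box_card (r X : ℕ) : #(Box r X) = X ^ r := by
  unfold Box
  rw [Fintype.card_piFinset]
  simp

/-- the number of vectors carrying `s` to primes -/
lemma cnt_pow (r X s : ℕ) : #((Box r X).filter fun h => ∀ j, (s + h j).Prime) =
    #((Icc 1 X).filter fun h => (s + h).Prime) ^ r := by
  have e : (Box r X).filter (fun h => ∀ j, (s + h j).Prime) =
      Fintype.piFinset fun _ : Fin r => (Icc 1 X).filter fun h => (s + h).Prime := by
    ext h
    unfold Box
    simp only [mem_filter, Fintype.mem_piFinset]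
    exact ⟨fun ⟨a, b⟩ j => ⟨a j, b j⟩, fun a => ⟨fun j => (a j).1, fun j => (a j).2⟩⟩
  rw [e, Fintype.card_piFinset]
  simp

lemma cnt_pow2 (r X s t : ℕ) :
    #((Box r X).filter fun h => (∀ j, (s + h j).Prime) ∧ ∀ j, (t + h j).Prime) =
    #((Icc 1 X).filter fun h => (s + h).Prime ∧ (t + h).Prime) ^ r := by
  have e : (Box r X).filter (fun h => (∀ j, (s + h j).Prime) ∧ ∀ j, (t + h j).Prime) =
      Fintype.piFinset fun _ : Fin r => (Icc 1 X).filter fun h => (s + h).Prime ∧ (t + h).Prime := by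
    ext h
    unfold Box
    simp only [mem_filter, Fintype.mem_piFinset]
    exact ⟨fun ⟨a, b, c⟩ j => ⟨a j, b j, c j⟩,
      fun a => ⟨fun j => (a j).1, fun j => (a j).2.1, fun j => (a j).2.2⟩⟩
  rw [e, Fintype.card_piFinset]
  simp

lemma first (r X : ℕ) (S : Finset ℕ) : ∑ h ∈ Box r X, (#(hit S h) : ℝ) =
    ∑ s ∈ S, (#((Icc 1 X).filter fun h => (s + h).Prime) : ℝ) ^ r := by
  have e : ∑ h ∈ Box r X, #(hit S h) = ∑ s ∈ S, #((Box r X).filter fun h => ∀ j, (s + h j).Prime) := by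
    unfold hit
    simp only [card_filter]
    exact sum_comm
  have e2 : ((∑ h ∈ Box r X, #(hit S h) : ℕ) : ℝ) =
      ((∑ s ∈ S, #((Box r X).filter fun h => ∀ j, (s + h j).Prime) : ℕ) : ℝ) := by rw [e]
  push_cast at e2
  rw [e2]
  refine sum_congr rfl fun s _ => ?_
  rw [cnt_pow]
  push_cast
  rfl

lemma second (r X : ℕ) (S : Finset ℕ) : ∑ h ∈ Box r X, (#(hit S h) : ℝ) ^ 2 =
    ∑ z ∈ S ×ˢ S, (#((Icc 1 X).filter fun h => (z.1 + h).Prime ∧ (z.2 + h).Prime) : ℝ) ^ r := by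
  have e : ∑ h ∈ Box r X, #(hit S h) ^ 2 =
      ∑ z ∈ S ×ˢ S, #((Box r X).filter fun h => (∀ j, (z.1 + h j).Prime) ∧ ∀ j, (z.2 + h j).Prime) := by
    have e1 : ∀ h : Fin r → ℕ, #(hit S h) ^ 2 =
        #((S ×ˢ S).filter fun z => (∀ j, (z.1 + h j).Prime) ∧ ∀ j, (z.2 + h j).Prime) := by
      intro h
      rw [sq, ← card_product]
      congr 1
      ext z
      unfold hit
      simp only [mem_product, mem_filter]
      tauto
    simp only [e1, card_filter]
    exact sum_comm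
  have e2 : ((∑ h ∈ Box r X, #(hit S h) ^ 2 : ℕ) : ℝ) = ((∑ z ∈ S ×ˢ S, #((Box r X).filter fun h =>
    (∀ j, (z.1 + h j).Prime) ∧ ∀ j, (z.2 + h j).Prime) : ℕ) : ℝ) := by rw [e]
  push_cast at e2
  rw [e2]
  refine sum_congr rfl fun z _ => ?_
  rw [cnt_pow2]
  push_cast
  rfl

/-- the primes in a shifted interval, from below -/
lemma low : ∃ X0 : ℕ, ∀ X s : ℕ, X0 ≤ X → (s : ℝ) ≤ X / (4 * Real.log X) →
    (X : ℝ) / (4 * Real.log X) ≤ #((Icc 1 X).filter fun h => (s + h).Prime) := by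
  obtain ⟨n0, h0⟩ := Pool.Agent.Y843.HG.pi_low
  refine ⟨max n0 3, fun X s hX hs => ?_⟩
  have h1 := h0 X ((le_max_left _ _).trans hX)
  have h3 : 3 ≤ X := (le_max_right _ _).trans hX
  have hl : 0 < Real.log X := Real.log_pos (by exact_mod_cast (show 1 < X by omega))
  have h2 : #((Ioc 0 X).filter Nat.Prime) ≤ s + #((Icc 1 X).filter fun h => (s + h).Prime) := by
    have e : (Ioc 0 X).filter Nat.Prime ⊆ Icc 1 s ∪
        ((Icc 1 X).filter fun h => (s + h).Prime).image (fun h => s + h) := by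
      intro q hq
      rw [mem_filter, mem_Ioc] at hq
      rw [mem_union, mem_Icc, mem_image]
      rcases le_or_gt q s with h | h
      · exact Or.inl ⟨by omega, h⟩
      · refine Or.inr ⟨q - s, ?_, by omega⟩
        rw [mem_filter, mem_Icc]
        have e2 : s + (q - s) = q := by omega
        rw [e2]
        exact ⟨⟨by omega, by omega⟩, hq.2⟩
    refine (card_le_card e).trans ((card_union_le _ _).trans ?_)
    have := card_image_le (s := (Icc 1 X).filter fun h => (s + h).Prime) (f := fun h => s + h)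
    rw [Nat.card_Icc]
    omega
  have h4 : (#((Ioc 0 X).filter Nat.Prime) : ℝ) ≤ s + #((Icc 1 X).filter fun h => (s + h).Prime) := by
    exact_mod_cast h2
  have h5 : (X : ℝ) / (2 * Real.log X) = 2 * (X / (4 * Real.log X)) := by ring
  linarith

/-- the primes in a shifted interval, from above -/
lemma up : ∃ C : ℝ, 1 ≤ C ∧ ∀ X s : ℕ, 2 ≤ X → s ≤ X →
    (#((Icc 1 X).filter fun h => (s + h).Prime) : ℝ) ≤ C * X / Real.log X := by
  obtain ⟨C, hC, h0⟩ := Pool.Agent.Helper602.Est.cheb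
  refine ⟨2 * C + 1, by linarith, fun X s hX hs => ?_⟩
  have hXr : (2 : ℝ) ≤ X := by exact_mod_cast hX
  have hsr : (s : ℝ) ≤ X := by exact_mod_cast hs
  have hl : 0 < Real.log X := Real.log_pos (by linarith)
  have h1 := h0 (s + X) (by omega)
  have h2 : #((Icc 1 X).filter fun h => (s + h).Prime) ≤ Nat.primeCounting (s + X) := by
    rw [Nat.primeCounting, Nat.primeCounting', Nat.count_eq_card_filter_range]
    apply card_le_card_of_injOn (fun h => s + h)
    · intro h hh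
      rw [mem_coe, mem_filter, mem_Icc] at hh
      rw [mem_coe, mem_filter, mem_range]
      refine ⟨?_, hh.2⟩
      show s + h < s + X + 1
      omega
    · intro a _ b _ hab
      simpa using hab
  have h3 : (#((Icc 1 X).filter fun h => (s + h).Prime) : ℝ) ≤ Nat.primeCounting (s + X) := by
    exact_mod_cast h2
  refine h3.trans (h1.trans ?_)
  have h4 : Real.log X ≤ Real.log ((s + X : ℕ) : ℝ) := by
    apply Real.log_le_log (by linarith)
    push_cast
    have : (0 : ℝ) ≤ s := Nat.cast_nonneg _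
    linarith
  have h5 : C * ((s + X : ℕ) : ℝ) ≤ (2 * C + 1) * X := by
    push_cast
    nlinarith
  have h6 : 0 ≤ C * ((s + X : ℕ) : ℝ) := by positivity
  exact div_le_div₀ (by positivity) h5 hl h4

/-- the number of `h` with two prime translates -/
lemma both : ∃ C : ℝ, 1 ≤ C ∧ ∃ u0 : ℕ, ∀ X Y s t : ℕ, u0 ≤ X → 2 * (Y : ℝ) ≤ (X : ℝ) ^ (1 / 16 : ℝ) →
    s ∈ Icc 1 Y → t ∈ Icc 1 Y → s ≠ t →
    (#((Icc 1 X).filter fun h => (s + h).Prime ∧ (t + h).Prime) : ℝ) ≤
      C * gg (2 * Nat.dist s t) * X / Real.log X ^ 2 := by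
  obtain ⟨C, hC, u0, h0⟩ := pair_sieve_sharp
  refine ⟨C, hC, u0, fun X Y s t hX hY hs ht hst => ?_⟩
  rw [mem_Icc] at hs ht
  have hd0 : 0 < Nat.dist s t := Nat.dist_pos_of_ne hst
  have hdY : Nat.dist s t ≤ Y := by unfold Nat.dist; omega
  have hdY' : 2 * (Nat.dist s t : ℝ) ≤ (X : ℝ) ^ (1 / 16 : ℝ) := by
    have : (Nat.dist s t : ℝ) ≤ Y := by exact_mod_cast hdY
    linarith
  have hb := h0 (Nat.dist s t) (min s t) X hd0 hX hdY'
  refine le_trans ?_ hb
  have h1 : #((Icc 1 X).filter fun h => (s + h).Prime ∧ (t + h).Prime) ≤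
      #((Ioc (min s t) (min s t + X)).filter fun n => n.Prime ∧ (n + Nat.dist s t).Prime) := by
    apply card_le_card_of_injOn (fun h => min s t + h)
    · intro h hh
      rw [mem_coe, mem_filter, mem_Icc] at hh
      rw [mem_coe, mem_filter, mem_Ioc]
      refine ⟨?_, ?_⟩
      · show min s t < min s t + h ∧ min s t + h ≤ min s t + X
        omega
      rcases le_total s t with hh2 | hh2
      · have e1 : min s t = s := min_eq_left hh2
        have e2 : s + h + Nat.dist s t = t + h := by unfold Nat.dist; omega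
        simp only [e1, e2]
        exact hh.2
      · have e1 : min s t = t := min_eq_right hh2
        have e2 : t + h + Nat.dist s t = s + h := by unfold Nat.dist; omega
        simp only [e1, e2]
        exact ⟨hh.2.2, hh.2.1⟩
    · intro a _ b _ hab
      simpa using hab
  exact_mod_cast h1

/-- Primes in the translates of a sparse set. -/
theorem sparse (r : ℕ) (hr : 1 ≤ r) : ∃ c : ℝ, 0 < c ∧ ∃ X0 : ℕ, ∀ (X Y : ℕ) (S : Finset ℕ), X0 ≤ X →
    16 ≤ Y → S ⊆ Icc 1 Y → 2 * (Y : ℝ) ≤ (X : ℝ) ^ (1 / 16 : ℝ) → Real.log X ^ r ≤ #S →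
    c * X ^ r / Real.log (Real.log Y) ^ r ≤
      #((Box r X).filter fun h => c * #S / Real.log X ^ r ≤ (#(hit S h) : ℝ)) := by
  obtain ⟨C1, hC1, hA⟩ := pair_avg_ll r hr
  obtain ⟨C2, hC2, hU⟩ := up
  obtain ⟨C3, hC3, u0, hB⟩ := both
  obtain ⟨X1, hL⟩ := low
  set D : ℝ := C2 ^ r * 2 ^ r + C3 ^ r * C1 with hD
  have hD1 : 1 ≤ D := by
    have h1 : (1 : ℝ) ≤ C2 ^ r := one_le_pow₀ hC2
    have h2 : (1 : ℝ) ≤ 2 ^ r := one_le_pow₀ (by norm_num)
    have h3 : (1 : ℝ) ≤ C3 ^ r := one_le_pow₀ hC3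
    nlinarith
  have hev : ∀ᶠ x : ℝ in Filter.atTop, x ^ (1 / 16 : ℝ) * (2 * Real.log x) ≤ x := by
    have h1 := (isLittleO_log_rpow_atTop (by norm_num : (0 : ℝ) < 15 / 16)).bound
      (by norm_num : (0 : ℝ) < 1 / 2)
    filter_upwards [h1, Filter.eventually_gt_atTop 1] with x h1 hx
    have hl : 0 < Real.log x := Real.log_pos hx
    rw [Real.norm_of_nonneg hl.le, Real.norm_of_nonneg (by positivity)] at h1
    have hx0 : 0 < x := by linarith
    calc x ^ (1 / 16 : ℝ) * (2 * Real.log x) ≤ x ^ (1 / 16 : ℝ) * x ^ (15 / 16 : ℝ) :=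
          mul_le_mul_of_nonneg_left (by linarith) (by positivity)
      _ = x := by rw [← Real.rpow_add hx0]; norm_num
  obtain ⟨x0, hx0⟩ := Filter.eventually_atTop.1 hev
  refine ⟨1 / (4 * 16 ^ r * D), by positivity, max (max u0 X1) (max 3 ⌈x0⌉₊), ?_⟩
  intro X Y S hX hY hS hYX hm
  have hX3 : 3 ≤ X := by omega
  have hXu : u0 ≤ X := by omega
  have hX1 : X1 ≤ X := by omega
  have hXx : x0 ≤ X := (Nat.le_ceil _).trans (by exact_mod_cast (show ⌈x0⌉₊ ≤ X by omega))
  have hXr : (3 : ℝ) ≤ X := by exact_mod_cast hX3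
  have hXp : (0 : ℝ) < X := by linarith
  have hev' := hx0 X hXx
  set L := Real.log X with hLdef
  have hL1 : 1 < L := by
    rw [hLdef, Real.lt_log_iff_exp_lt hXp]
    linarith [Real.exp_one_lt_d9]
  have hL0 : 0 < L := by linarith
  set LL := Real.log (Real.log Y) with hLL
  have hYr : (16 : ℝ) ≤ Y := by exact_mod_cast hY
  have hLL1 : 1 / 2 ≤ LL := by
    have h1 : (2.7 : ℝ) < Real.log Y := by
      have h1 : Real.log 16 ≤ Real.log Y := Real.log_le_log (by norm_num) hYr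
      have h2 : Real.log 16 = 4 * Real.log 2 := by
        rw [show (16 : ℝ) = 2 ^ 4 by norm_num, Real.log_pow]; norm_num
      have := Real.log_two_gt_d9
      linarith
    rw [hLL, Real.le_log_iff_exp_le (by linarith)]
    have h2 : Real.exp (1 / 2 : ℝ) ≤ Real.exp 1 := Real.exp_le_exp.2 (by norm_num)
    have h3 : Real.exp (1 / 2 : ℝ) ^ 2 = Real.exp 1 := by
      rw [← Real.exp_nat_mul]; norm_num
    have h4 := Real.exp_one_lt_d9
    have h5 := Real.exp_pos (1 / 2 : ℝ)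
    nlinarith
  have hLLr : 1 ≤ 2 ^ r * LL ^ r := by
    rw [← mul_pow]
    exact one_le_pow₀ (by linarith)
  have hLL0 : 0 < LL := by linarith
  set m : ℝ := (#S : ℝ) with hmdef
  have hm1 : 1 ≤ m := (one_le_pow₀ hL1.le).trans hm
  have hm0 : 0 < m := by linarith
  have hYle : (Y : ℝ) ≤ X / (4 * L) := by
    rw [le_div_iff₀ (by positivity)]
    have h1 : (Y : ℝ) * (4 * L) = (2 * Y) * (2 * L) := by ring
    rw [h1]
    exact (mul_le_mul_of_nonneg_right hYX (by positivity)).trans hev'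
  have hYX' : Y ≤ X := by
    have h1 : (X : ℝ) / (4 * L) ≤ X := div_le_self hXp.le (by linarith)
    exact_mod_cast hYle.trans h1
  set t : ℝ := m / (2 * 4 ^ r * L ^ r) with ht
  have ht0 : 0 < t := by positivity
  set G := (Box r X).filter fun h => t ≤ (#(hit S h) : ℝ) with hG
  -- the first moment
  have hfirst : 2 * t * X ^ r ≤ ∑ h ∈ Box r X, (#(hit S h) : ℝ) := by
    rw [first]
    have h1 : ∀ s ∈ S, ((X : ℝ) / (4 * L)) ^ r ≤
        (#((Icc 1 X).filter fun h => (s + h).Prime) : ℝ) ^ r := by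
      intro s hs
      apply pow_le_pow_left₀ (by positivity)
      apply hL X s hX1
      have : (s : ℝ) ≤ Y := by exact_mod_cast (mem_Icc.1 (hS hs)).2
      linarith
    have h2 := sum_le_sum h1
    rw [sum_const, nsmul_eq_mul] at h2
    refine le_trans (le_of_eq ?_) h2
    rw [ht, ← hmdef, div_pow, mul_pow]
    field_simp
  -- the second moment
  have hsecond : ∑ h ∈ Box r X, (#(hit S h) : ℝ) ^ 2 ≤ m ^ 2 * X ^ r * D * LL ^ r / L ^ (2 * r) := by
    rw [second, ← diag_union_offDiag, sum_union (disjoint_diag_offDiag S)]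
    have h1 : ∑ z ∈ S.diag, (#((Icc 1 X).filter fun h => (z.1 + h).Prime ∧ (z.2 + h).Prime) : ℝ) ^ r ≤
        m * (C2 * X / L) ^ r := by
      rw [hmdef, ← diag_card S, ← nsmul_eq_mul]
      apply sum_le_card_nsmul
      intro z hz
      rw [mem_diag] at hz
      apply pow_le_pow_left₀ (Nat.cast_nonneg _)
      have h2 := hU X z.1 (by omega) (((mem_Icc.1 (hS hz.1)).2).trans hYX')
      refine le_trans ?_ h2
      have : (Icc 1 X).filter (fun h => (z.1 + h).Prime ∧ (z.2 + h).Prime) ⊆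
          (Icc 1 X).filter (fun h => (z.1 + h).Prime) :=
        fun h hh => mem_filter.2 ⟨(mem_filter.1 hh).1, (mem_filter.1 hh).2.1⟩
      exact_mod_cast card_le_card this
    have h2 : ∑ z ∈ S.offDiag, (#((Icc 1 X).filter fun h => (z.1 + h).Prime ∧ (z.2 + h).Prime) : ℝ) ^ r ≤
        (C3 * X / L ^ 2) ^ r * (C1 * LL ^ r * m ^ 2) := by
      refine le_trans ?_ (mul_le_mul_of_nonneg_left (hA Y S hY hS) (by positivity))
      rw [mul_sum]
      apply sum_le_sum
      intro z hz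
      rw [mem_offDiag] at hz
      rw [← mul_pow]
      apply pow_le_pow_left₀ (Nat.cast_nonneg _)
      refine (hB X Y z.1 z.2 hXu hYX (hS hz.1) (hS hz.2.1) hz.2.2).trans (le_of_eq ?_)
      ring
    refine (add_le_add h1 h2).trans ?_
    have h3 : m * (C2 * X / L) ^ r ≤ m ^ 2 * X ^ r * (C2 ^ r * 2 ^ r) * LL ^ r / L ^ (2 * r) := by
      rw [div_pow, mul_pow, mul_div_assoc', div_le_div_iff₀ (by positivity) (by positivity)]
      have e : L ^ (2 * r) = L ^ r * L ^ r := by rw [two_mul, pow_add]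
      rw [e]
      have h4 : L ^ r * 1 ≤ m * (2 ^ r * LL ^ r) :=
        mul_le_mul hm hLLr (by norm_num) hm0.le
      have h5 : 0 ≤ m * (C2 ^ r * X ^ r) * L ^ r := by positivity
      calc m * (C2 ^ r * X ^ r) * (L ^ r * L ^ r) = (m * (C2 ^ r * X ^ r) * L ^ r) * (L ^ r * 1) := by ring
        _ ≤ (m * (C2 ^ r * X ^ r) * L ^ r) * (m * (2 ^ r * LL ^ r)) := mul_le_mul_of_nonneg_left h4 h5
        _ = _ := by ring
    have h4 : (C3 * X / L ^ 2) ^ r * (C1 * LL ^ r * m ^ 2) =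
        m ^ 2 * X ^ r * (C3 ^ r * C1) * LL ^ r / L ^ (2 * r) := by
      rw [div_pow, mul_pow, ← pow_mul]
      ring
    rw [h4]
    refine (add_le_add_left h3 _).trans (le_of_eq ?_)
    rw [hD]
    ring
  -- the good vectors
  have hlow : t * X ^ r ≤ ∑ h ∈ G, (#(hit S h) : ℝ) := by
    have h1 := sum_filter_add_sum_filter_not (Box r X) (fun h => t ≤ (#(hit S h) : ℝ))
      (fun h => (#(hit S h) : ℝ))
    have h2 : ∑ h ∈ (Box r X).filter (fun h => ¬ t ≤ (#(hit S h) : ℝ)), (#(hit S h) : ℝ) ≤ X ^ r * t := by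
      have h3 : ∑ h ∈ (Box r X).filter (fun h => ¬ t ≤ (#(hit S h) : ℝ)), (#(hit S h) : ℝ) ≤
          ∑ h ∈ (Box r X).filter (fun h => ¬ t ≤ (#(hit S h) : ℝ)), t :=
        sum_le_sum fun h hh => (not_le.1 (mem_filter.1 hh).2).le
      rw [sum_const, nsmul_eq_mul] at h3
      refine h3.trans (mul_le_mul_of_nonneg_right ?_ ht0.le)
      have h4 := card_filter_le (Box r X) (fun h => ¬ t ≤ (#(hit S h) : ℝ))
      rw [box_card] at h4
      exact_mod_cast h4
    rw [← hG] at h1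
    linarith
  have hCS : (∑ h ∈ G, (#(hit S h) : ℝ)) ^ 2 ≤ #G * ∑ h ∈ G, (#(hit S h) : ℝ) ^ 2 :=
    sq_sum_le_card_mul_sum_sq
  have hGsum : ∑ h ∈ G, (#(hit S h) : ℝ) ^ 2 ≤ ∑ h ∈ Box r X, (#(hit S h) : ℝ) ^ 2 :=
    sum_le_sum_of_subset_of_nonneg (filter_subset _ _) fun _ _ _ => by positivity
  have hfin : (t * X ^ r) ^ 2 ≤ #G * (m ^ 2 * X ^ r * D * LL ^ r / L ^ (2 * r)) := by
    calc (t * X ^ r) ^ 2 ≤ (∑ h ∈ G, (#(hit S h) : ℝ)) ^ 2 := pow_le_pow_left₀ (by positivity) hlow 2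
      _ ≤ _ := hCS
      _ ≤ _ := mul_le_mul_of_nonneg_left (hGsum.trans hsecond) (Nat.cast_nonneg _)
  have hGc : 1 / (4 * 16 ^ r * D) * X ^ r / LL ^ r ≤ #G := by
    have h1 : (t * X ^ r) ^ 2 = (1 / (4 * 16 ^ r * D) * X ^ r / LL ^ r) *
        (m ^ 2 * X ^ r * D * LL ^ r / L ^ (2 * r)) := by
      rw [ht, pow_mul, show (16 : ℝ) = 4 * 4 by norm_num, mul_pow 4 4 r]
      field_simp
      ring
    rw [h1] at hfin
    exact le_of_mul_le_mul_right hfin (by positivity)
  refine hGc.trans ?_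
  have hsub : G ⊆ (Box r X).filter fun h => 1 / (4 * 16 ^ r * D) * m / L ^ r ≤ (#(hit S h) : ℝ) := by
    intro h hh
    rw [hG, mem_filter] at hh
    rw [mem_filter]
    refine ⟨hh.1, le_trans ?_ hh.2⟩
    rw [ht, div_le_div_iff₀ (by positivity) (by positivity)]
    have h1 : (1 : ℝ) / (4 * 16 ^ r * D) ≤ 1 / (2 * 4 ^ r) := by
      apply one_div_le_one_div_of_le (by positivity)
      have h2 : (4 : ℝ) ^ r ≤ 16 ^ r := pow_le_pow_left₀ (by norm_num) (by norm_num) r
      nlinarith [show (0 : ℝ) < 16 ^ r by positivity]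
    calc 1 / (4 * 16 ^ r * D) * m * (2 * 4 ^ r * L ^ r) ≤ 1 / (2 * 4 ^ r) * m * (2 * 4 ^ r * L ^ r) := by
          gcongr
      _ = m * L ^ r := by field_simp
  exact_mod_cast card_le_card hsub

end Pool.Agent.X28.SP
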