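import Pool.Agent.H197R2.PG2
import Pool.Agent.H197R2.PG4

/-! Powers of the singular factor over the differences of a sparse set. -/

set_option autoImplicit false

open Finset

namespace Pool.Agent.X28.SP
open Pool.Agent.H197R2.PG

theorem pair_avg_pow : ∃ C : ℝ, 1 ≤ C ∧ ∀ (r m Y : ℕ) (S : Finset ℕ), 3 ≤ r * (m + 1) → S ⊆ Icc 1 Y →
    2 * (Y : ℝ) ≤ 3 ^ (m + 1) * #S →
    ∑ x ∈ S.offDiag, gg (2 * Nat.dist x.1 x.2) ^ r ≤
      3 * (C * Real.log (r * (m + 1))) ^ r * (#S : ℝ) ^ 2 := by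
  classical
  obtain ⟨C, hC, hE⟩ := euler_le
  refine ⟨3 / 2 * C, by linarith, ?_⟩
  intro r m Y S hk hS hYE
  have hk3 : (3 : ℝ) ≤ (r * (m + 1) : ℕ) := by exact_mod_cast hk
  have hlogk : 0 < Real.log ((r * (m + 1) : ℕ) : ℝ) := Real.log_pos (by linarith)
  set X := ∑ x ∈ S.offDiag, gg (2 * Nat.dist x.1 x.2) ^ r with hX
  have hK0 : (0 : ℝ) ≤ (#S : ℝ) := Nat.cast_nonneg _
  have hg0 : ∀ n, 0 ≤ gg n := fun n => by linarith [one_le_gg n]
  have h1 : X ^ (m + 1) ≤ (#S.offDiag : ℝ) ^ m *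
      ∑ x ∈ S.offDiag, (gg (2 * Nat.dist x.1 x.2) ^ r) ^ (m + 1) :=
    pow_sum_le_card_mul_sum_pow (fun x _ => pow_nonneg (hg0 _) _) m
  have h2 : (#S.offDiag : ℝ) ≤ (#S : ℝ) ^ 2 := by
    have : #S.offDiag ≤ #S * #S := by
      rw [offDiag_card]
      exact Nat.sub_le _ _
    calc (#S.offDiag : ℝ) ≤ ((#S * #S : ℕ) : ℝ) := by exact_mod_cast this
      _ = (#S : ℝ) ^ 2 := by push_cast; ring
  set k := r * (m + 1) with hkdef
  have h3 : ∑ x ∈ S.offDiag, (gg (2 * Nat.dist x.1 x.2) ^ r) ^ (m + 1) ≤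
      ∑ x ∈ S.offDiag, (fun n : ℕ => (3 / 2 : ℝ) ^ k * gg n ^ k) (Nat.dist x.1 x.2) := by
    apply Finset.sum_le_sum
    intro x hx
    rw [mem_offDiag] at hx
    have hd : 0 < Nat.dist x.1 x.2 := Nat.dist_pos_of_ne hx.2.2
    have h4 := gg_two_mul_le _ hd
    simp only
    rw [← mul_pow, ← pow_mul]
    exact pow_le_pow_left₀ (hg0 _) h4 _
  have h5 := sum_dist_le S Y hS (fun n : ℕ => (3 / 2 : ℝ) ^ k * gg n ^ k)
    (fun n => mul_nonneg (by positivity) (pow_nonneg (hg0 _) _))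
  have h6 : ∑ h ∈ Icc 1 Y, (3 / 2 : ℝ) ^ k * gg h ^ k ≤
      (3 / 2 : ℝ) ^ k * (Y * (C * Real.log (k : ℝ)) ^ k) := by
    rw [← Finset.mul_sum]
    apply mul_le_mul_of_nonneg_left _ (by positivity)
    exact (moment_le k Y).trans (mul_le_mul_of_nonneg_left (hE k Y hk) (Nat.cast_nonneg _))
  set W : ℝ := C * Real.log (k : ℝ) with hW
  have hW0 : 0 ≤ W := by positivity
  have h7 : X ^ (m + 1) ≤ (3 * (3 / 2 * W) ^ r * (#S : ℝ) ^ 2) ^ (m + 1) := by
    calc X ^ (m + 1) ≤ (#S.offDiag : ℝ) ^ m *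
          ∑ x ∈ S.offDiag, (gg (2 * Nat.dist x.1 x.2) ^ r) ^ (m + 1) := h1
      _ ≤ ((#S : ℝ) ^ 2) ^ m * (2 * #S * ((3 / 2 : ℝ) ^ k * (Y * W ^ k))) := by
          apply mul_le_mul
          · gcongr
          · refine h3.trans (h5.trans ?_)
            apply mul_le_mul_of_nonneg_left h6 (by positivity)
          · apply Finset.sum_nonneg
            intro x _
            exact pow_nonneg (pow_nonneg (hg0 _) _) _
          · positivity
      _ = ((#S : ℝ) ^ 2) ^ m * (((3 / 2 : ℝ) * W) ^ k * #S * (2 * Y)) := by ring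
      _ ≤ ((#S : ℝ) ^ 2) ^ m * (((3 / 2 : ℝ) * W) ^ k * #S * (3 ^ (m + 1) * #S)) := by
          gcongr
      _ = (3 * (3 / 2 * W) ^ r * (#S : ℝ) ^ 2) ^ (m + 1) := by
          rw [hkdef, pow_mul]
          simp only [mul_pow]
          ring
  have h8 := le_of_pow_le_pow_left₀ (by omega) (by positivity) h7
  have e : (3 / 2 * C * Real.log (r * (m + 1))) = 3 / 2 * W := by
    rw [hW, hkdef]; push_cast; ring
  rw [e]
  exact h8

/-- The average of the `r`-th power is at most a constant times the `r`-th power of `log log Y`. -/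
theorem pair_avg_ll (r : ℕ) (hr : 1 ≤ r) : ∃ C : ℝ, 1 ≤ C ∧ ∀ (Y : ℕ) (S : Finset ℕ), 16 ≤ Y →
    S ⊆ Icc 1 Y → 
    ∑ x ∈ S.offDiag, gg (2 * Nat.dist x.1 x.2) ^ r ≤
      C * Real.log (Real.log Y) ^ r * (#S : ℝ) ^ 2 := by
  obtain ⟨C, hC, h⟩ := pair_avg_pow
  have hrr : (1 : ℝ) ≤ r := by exact_mod_cast hr
  have hlr : 0 ≤ Real.log r := Real.log_nonneg hrr
  refine ⟨3 * (C * (2 * Real.log r + 3)) ^ r, ?_, ?_⟩
  · have : (1 : ℝ) ≤ C * (2 * Real.log r + 3) := by nlinarith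
    have := one_le_pow₀ this (n := r)
    linarith
  intro Y S hY hS
  rcases S.eq_empty_or_nonempty with he | hne
  · subst he
    simp
  have hc1 : (1 : ℝ) ≤ #S := by exact_mod_cast hne.card_pos
  have hYr : (16 : ℝ) ≤ Y := by exact_mod_cast hY
  have hY0 : (0 : ℝ) < Y := by linarith
  have hl2 : (2.7 : ℝ) < Real.log Y := by
    have h1 : Real.log 16 ≤ Real.log Y := Real.log_le_log (by norm_num) hYr
    have h2 : Real.log 16 = 4 * Real.log 2 := by
      rw [show (16 : ℝ) = 2 ^ 4 by norm_num, Real.log_pow]; norm_num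
    have := Real.log_two_gt_d9
    linarith
  set m : ℕ := ⌈Real.log Y⌉₊ with hm
  have hm1 : Real.log Y ≤ m := Nat.le_ceil _
  have hm2 : (m : ℝ) < Real.log Y + 1 := Nat.ceil_lt_add_one (by linarith)
  have hm3 : 3 ≤ m := by
    have : (2 : ℝ) < m := by linarith
    exact_mod_cast this
  have h3 : 2 * (Y : ℝ) ≤ 3 ^ (m + 1) * #S := by
    have e1 : (Y : ℝ) ≤ 3 ^ m := by
      have h4 : Real.exp (Real.log Y) ≤ Real.exp m := Real.exp_le_exp.2 hm1
      rw [Real.exp_log hY0] at h4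
      have h5 : Real.exp (m : ℝ) = Real.exp 1 ^ m := by rw [← Real.exp_nat_mul, mul_one]
      rw [h5] at h4
      refine h4.trans (pow_le_pow_left₀ (Real.exp_pos 1).le ?_ _)
      linarith [Real.exp_one_lt_d9]
    have e2 : (0 : ℝ) < 3 ^ m := by positivity
    rw [pow_succ]
    nlinarith
  have h4 := h r m Y S (by nlinarith) hS h3
  refine h4.trans ?_
  have hll : 0.9 < Real.log (Real.log Y) := by
    have h5 : Real.log 2.7 < Real.log (Real.log Y) := Real.log_lt_log (by norm_num) hl2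
    have h6 : (0.9 : ℝ) < Real.log 2.7 := by
      rw [Real.lt_log_iff_exp_lt (by norm_num)]
      have h7 : Real.exp (0.9 : ℝ) ^ 10 = Real.exp 1 ^ 9 := by
        rw [← Real.exp_nat_mul, ← Real.exp_nat_mul]; norm_num
      have h8 : Real.exp 1 ^ 9 < (2.7182818286 : ℝ) ^ 9 :=
        pow_lt_pow_left₀ Real.exp_one_lt_d9 (Real.exp_pos 1).le (by norm_num)
      have h9 : (2.7182818286 : ℝ) ^ 9 < 2.7 ^ 10 := by norm_num
      by_contra hcon
      push Not at hcon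
      have h10 : (2.7 : ℝ) ^ 10 ≤ Real.exp (0.9 : ℝ) ^ 10 := pow_le_pow_left₀ (by norm_num) hcon 10
      linarith
    linarith
  have h5 : Real.log (r * (m + 1)) ≤ (2 * Real.log r + 3) * Real.log (Real.log Y) := by
    rw [Real.log_mul (by positivity) (by positivity)]
    have h6 : Real.log ((m : ℝ) + 1) ≤ Real.log (Real.log Y ^ 2) := by
      apply Real.log_le_log (by positivity)
      nlinarith
    rw [Real.log_pow] at h6
    push_cast at h6
    nlinarith
  have h6 : 0 ≤ Real.log (r * ((m : ℝ) + 1)) := by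
    apply Real.log_nonneg
    have : (0 : ℝ) ≤ m := Nat.cast_nonneg _
    nlinarith
  have h7 : (C * Real.log (r * ((m : ℝ) + 1))) ^ r ≤
      (C * (2 * Real.log r + 3)) ^ r * Real.log (Real.log Y) ^ r := by
    rw [← mul_pow]
    apply pow_le_pow_left₀ (by positivity)
    rw [mul_assoc]
    exact mul_le_mul_of_nonneg_left h5 (by linarith)
  have h8 : (0 : ℝ) ≤ (#S : ℝ) ^ 2 := by positivity
  nlinarith [mul_le_mul_of_nonneg_right h7 h8]

end Pool.Agent.X28.SP
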