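import Pool.Agent.H197R2.PG2

/-! Upper bound sieve for the pairs `k q + j`, `k q + j'` where `q` is a power of two. -/

set_option autoImplicit false

open Finset

namespace Pool.Agent.X28.SP
open Pool.Agent.H197R2.PG Pool.Agent.H357R2.SI Pool.Agent.Helper601

theorem pair_aux' {s : ℕ} {R : Finset ℕ} (hR3 : ∀ r ∈ R, 3 ≤ r) (hR : ∀ r ∈ R, r.Prime)
    (hRs : ∀ r ∈ R, ¬ r ∣ s) {a u N : ℕ}
    (hN : 1 ≤ N) (L : ℝ) (hL : 0 < L)
    (hlow : L ≤ ∑ l ∈ (Finset.Icc 1 N).filter Squarefree, ∏ p ∈ l.primeFactors,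
        (if p ∈ R then 2 / ((p : ℝ) - 2) else 1 / ((p : ℝ) - 1))) :
    (((Finset.Ioc a (a + u)).filter
      (fun n => (∀ p ∈ (Finset.Icc 1 N).filter Nat.Prime, ¬ p ∣ n) ∧ ∀ r ∈ R, ¬ r ∣ n + s)).card : ℝ) ≤
      u / L + (N : ℝ) ^ 6 := by
  have hN' : (1 : ℝ) ≤ N := by exact_mod_cast hN
  have h1 : (((Finset.Ioc a (a + u)).filter
      (fun n => (∀ p ∈ (Finset.Icc 1 N).filter Nat.Prime, ¬ p ∣ n) ∧ ∀ r ∈ R, ¬ r ∣ n + s)).card : ℝ) ≤
      (pairSieve s R hR3 a u N).siftedSum := by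
    have e : (pairSieve s R hR3 a u N).siftedSum =
        (((Finset.Ioc a (a + u)).filter (fun n => Nat.Coprime (PP 1 N) (FFs s R n))).card : ℝ) := by
      unfold BoundingSieve.siftedSum
      exact sum_supports s R hR3 a u N (fun m => Nat.Coprime (PP 1 N) m)
    rw [e]
    have h1 : (Finset.Ioc a (a + u)).filter
        (fun n => (∀ p ∈ (Finset.Icc 1 N).filter Nat.Prime, ¬ p ∣ n) ∧ ∀ r ∈ R, ¬ r ∣ n + s) ⊆
        (Finset.Ioc a (a + u)).filter (fun n => Nat.Coprime (PP 1 N) (FFs s R n)) := by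
      intro n hn
      rw [Finset.mem_filter] at hn
      rw [Finset.mem_filter]
      refine ⟨hn.1, ?_⟩
      apply Nat.coprime_of_dvd
      intro p hp h1 h2
      rcases (prime_dvd_FFs s R hp).mp h2 with h3 | ⟨h3, h4⟩
      · exact hn.2.1 p (mem_filter.2 ⟨mem_Icc.2 ⟨hp.one_lt.le, ((prime_dvd_PP hp).mp h1).1⟩, hp⟩) h3
      · exact hn.2.2 p h3 h4
    exact_mod_cast Finset.card_le_card h1
  have h2 := siftedSum_le_selberg' (pairSieve s R hR3 a u N) (N : ℝ) hN' ((N : ℝ) ^ 2) (by positivity)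
    (fun d hd hdN => (pairSieve_rem hR3 hR hRs hd).trans hdN)
  have h3 := hlow.trans (pairSieve_selS (s := s) hR3 a u N)
  have h4 : (pairSieve s R hR3 a u N).totalMass / selS (pairSieve s R hR3 a u N) N ≤ u / L := by
    change (u : ℝ) / _ ≤ _
    exact div_le_div_of_nonneg_left (by positivity) hL h3
  have h5 := pairSieve_inv (s := s) hR3 a u N
  have h7 : 0 ≤ (∑ d ∈ (Nat.divisors (pairSieve s R hR3 a u N).prodPrimes).filter
      (fun d : ℕ => (d : ℝ) ≤ N), ((pairSieve s R hR3 a u N).nu d)⁻¹) := by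
    apply Finset.sum_nonneg
    intro d _
    change 0 ≤ ((d : ℝ)⁻¹ * 2 ^ (R.filter (fun r => r.Prime ∧ r ∣ d)).card)⁻¹
    positivity
  have h8 : (N : ℝ) ^ 2 * (∑ d ∈ (Nat.divisors (pairSieve s R hR3 a u N).prodPrimes).filter
      (fun d : ℕ => (d : ℝ) ≤ N), ((pairSieve s R hR3 a u N).nu d)⁻¹) ^ 2 ≤ (N : ℝ) ^ 6 := by
    calc _ ≤ (N : ℝ) ^ 2 * ((N : ℝ) ^ 2) ^ 2 := by gcongr
      _ = (N : ℝ) ^ 6 := by ring
  linarith

/-- Upper bound sieve for two primes in a progression modulo a power of two. -/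
theorem pair_prog : ∃ C : ℝ, 1 ≤ C ∧ ∃ u0 : ℕ, ∀ ν j h a u : ℕ, 0 < h → u0 ≤ u → u ≤ a →
    2 * (h : ℝ) ≤ (u : ℝ) ^ (1 / 16 : ℝ) →
    (((Finset.Ioc a (a + u)).filter
      (fun k => (k * 2 ^ ν + j).Prime ∧ (k * 2 ^ ν + (j + h)).Prime)).card : ℝ) ≤
      C * gg (2 * h) * u / Real.log u ^ 2 := by
  refine ⟨65538, by norm_num, ?_⟩
  obtain ⟨x0, hx0⟩ := Filter.eventually_atTop.mp (pair_asymp.and asymp32)
  refine ⟨⌈x0⌉₊, ?_⟩
  intro ν j h a u hh hu hua hhu
  have hux : x0 ≤ (u : ℝ) := Nat.ceil_le.mp hu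
  obtain ⟨⟨hu1, h16, h34⟩, h32⟩ := hx0 u hux
  have hu0 : (0 : ℝ) < u := by linarith
  have hlog : 0 < Real.log u := Real.log_pos hu1
  have hgg := one_le_gg (2 * h)
  set M : ℕ := ⌊(u : ℝ) ^ (1 / 16 : ℝ)⌋₊ with hM
  set N : ℕ := M * M with hN
  have hM32 : (u : ℝ) ^ (1 / 32 : ℝ) ≤ M := by
    have := Nat.lt_floor_add_one ((u : ℝ) ^ (1 / 16 : ℝ))
    rw [← hM] at this
    linarith
  have h321 : 1 ≤ (u : ℝ) ^ (1 / 32 : ℝ) := Real.one_le_rpow hu1.le (by norm_num)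
  have hM1r : (1 : ℝ) ≤ M := h321.trans hM32
  have hM1 : 1 ≤ M := by exact_mod_cast hM1r
  have hN1 : 1 ≤ N := Nat.mul_pos hM1 hM1
  have hM16 : (M : ℝ) ≤ (u : ℝ) ^ (1 / 16 : ℝ) := Nat.floor_le (by positivity)
  have hN8 : (N : ℝ) ≤ (u : ℝ) ^ (1 / 8 : ℝ) := by
    have e : (u : ℝ) ^ (1 / 8 : ℝ) = (u : ℝ) ^ (1 / 16 : ℝ) * (u : ℝ) ^ (1 / 16 : ℝ) := by
      rw [← Real.rpow_add hu0]; norm_num
    rw [e, hN]
    push_cast
    gcongr
  have hlogM : (1 / 32) * Real.log u ≤ Real.log M := by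
    rw [← Real.log_rpow hu0]
    exact Real.log_le_log (by positivity) hM32
  have hhM : 2 * h ≤ M := by
    rw [hM]
    apply Nat.le_floor
    push_cast
    exact hhu
  have hlow := selberg_sharp hh hM1 le_rfl hhM
  set R := (Finset.Icc 1 N).filter (fun p => p.Prime ∧ ¬ p ∣ 2 * h) with hR
  have hRp : ∀ r ∈ R, r.Prime := fun r hr => (Finset.mem_filter.mp hr).2.1
  have hR3 : ∀ r ∈ R, 3 ≤ r := by
    intro r hr
    have h1 := (Finset.mem_filter.mp hr).2
    rcases Nat.lt_or_ge r 3 with h9 | h9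
    · have : r = 2 := le_antisymm (by omega) h1.1.two_le
      subst this
      exact absurd (dvd_mul_right 2 h) h1.2
    · exact h9
  have hRh : ∀ r ∈ R, ¬ r ∣ h := by
    intro r hr hd
    exact (Finset.mem_filter.mp hr).2.2 (hd.mul_left 2)
  have hL : 0 < Real.log M ^ 2 / (32 * gg (2 * h)) := by
    have : 0 < Real.log M := lt_of_lt_of_le (by positivity) hlogM
    positivity
  have hNu : N < u := by
    have h1 : (N : ℝ) < u := by
      refine lt_of_le_of_lt hN8 ?_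
      calc (u : ℝ) ^ (1 / 8 : ℝ) < (u : ℝ) ^ (1 : ℝ) :=
            Real.rpow_lt_rpow_of_exponent_lt hu1 (by norm_num)
        _ = u := Real.rpow_one _
    exact_mod_cast h1
  -- the odd primes up to `N`
  set P : ℕ := ∏ p ∈ (Finset.Icc 3 N).filter Nat.Prime, p with hP
  have hP2 : Nat.Coprime 2 P := by
    rw [hP]
    apply Nat.Coprime.prod_right
    intro p hp
    rw [mem_filter, mem_Icc] at hp
    exact (Nat.coprime_primes Nat.prime_two hp.2).2 (by omega)
  have hPd : ∀ p : ℕ, p.Prime → 3 ≤ p → p ≤ N → p ∣ P := by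
    intro p hp h3 hpN
    exact dvd_prod_of_mem _ (mem_filter.2 ⟨mem_Icc.2 ⟨h3, hpN⟩, hp⟩)
  have hqP : Nat.Coprime (2 ^ ν) P := Nat.Coprime.pow_left _ hP2
  have hP0 : 0 < P := by
    rw [hP]
    exact prod_pos fun p hp => (mem_filter.1 hp).2.pos
  obtain ⟨w, hw⟩ : ∃ w : ℕ, 2 ^ ν * w ≡ 1 [MOD P] := by
    refine ⟨(2 ^ ν) ^ (P.totient - 1), ?_⟩
    rw [← pow_succ', Nat.sub_add_cancel (Nat.totient_pos.2 hP0)]
    exact Nat.ModEq.pow_totient hqP
  have hcount : ∀ e : ℕ, (((Finset.Ioc a (a + u)).filter (fun k => k % 2 = e % 2 ∧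
      (k * 2 ^ ν + j).Prime ∧ (k * 2 ^ ν + (j + h)).Prime)).card : ℝ) ≤
      u / (Real.log M ^ 2 / (32 * gg (2 * h))) + (N : ℝ) ^ 6 := by
    intro e
    obtain ⟨t, ht1, ht2⟩ := Nat.chineseRemainder hP2 (e + 1) (j * w)
    have hdv : ∀ r ∈ R, ¬ r ∣ h * w := by
      intro r hr hd
      rcases (hRp r hr).dvd_mul.1 hd with h1 | h1
      · exact hRh r hr h1
      · have h2 := hPd r (hRp r hr) (hR3 r hr) (mem_Icc.1 (mem_filter.1 hr).1).2
        have h3 := hw.of_dvd h2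
        have h4 : r ∣ 2 ^ ν * w := h1.mul_left _
        have h5 := (h3.dvd_iff dvd_rfl).1 h4
        exact (hRp r hr).one_lt.ne' (Nat.dvd_one.1 h5)
    have h1 := pair_aux' (s := h * w) hR3 hRp hdv (a := a + t) (u := u) hN1 _ hL hlow
    refine le_trans ?_ h1
    have h2 : ((Finset.Ioc a (a + u)).filter (fun k => k % 2 = e % 2 ∧
      (k * 2 ^ ν + j).Prime ∧ (k * 2 ^ ν + (j + h)).Prime)).card ≤
      ((Finset.Ioc (a + t) (a + t + u)).filter
      (fun n => (∀ p ∈ (Finset.Icc 1 N).filter Nat.Prime, ¬ p ∣ n) ∧ ∀ r ∈ R, ¬ r ∣ n + h * w)).card := by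
      apply card_le_card_of_injOn (fun k => k + t)
      · intro k hk
        rw [mem_coe, mem_filter, mem_Ioc] at hk
        obtain ⟨⟨hk1, hk2⟩, hke, hk3, hk4⟩ := hk
        have hbig : N < k * 2 ^ ν := by
          have : k ≤ k * 2 ^ ν := Nat.le_mul_of_pos_right _ (by positivity)
          omega
        -- the key congruence
        have key : ∀ p : ℕ, p.Prime → 3 ≤ p → p ≤ N → ∀ b y : ℕ, (y ≡ b * w [MOD P]) →
            p ∣ k + y → p ∣ k * 2 ^ ν + b := by
          intro p hp hp3 hpN b y hy hd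
          have hpP := hPd p hp hp3 hpN
          have h3 : k * 2 ^ ν + b ≡ (k + y) * 2 ^ ν [MOD p] := by
            have h4 : y * 2 ^ ν ≡ b [MOD p] := by
              calc y * 2 ^ ν ≡ (b * w) * 2 ^ ν [MOD p] := (hy.of_dvd hpP).mul_right _
                _ = b * (2 ^ ν * w) := by ring
                _ ≡ b * 1 [MOD p] := (hw.of_dvd hpP).mul_left _
                _ = b := mul_one b
            rw [add_mul]
            exact (h4.symm).add_left _
          exact (h3.dvd_iff dvd_rfl).2 (hd.mul_right _)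
        rw [mem_coe, mem_filter, mem_Ioc]
        refine ⟨⟨?_, ?_⟩, ?_, ?_⟩
        · show a + t < k + t
          omega
        · show k + t ≤ a + t + u
          omega
        · intro p hp' hd
          change p ∣ k + t at hd
          have hp := (mem_filter.1 hp').2
          have hpN := (mem_Icc.1 (mem_filter.1 hp').1).2
          rcases Nat.lt_or_ge p 3 with h9 | h9
          · have : p = 2 := le_antisymm (by omega) hp.two_le
            subst this
            have h5 : t % 2 = (e + 1) % 2 := ht1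
            omega
          · have h6 := key p hp h9 hpN j t ht2 hd
            have h7 := (Nat.prime_dvd_prime_iff_eq hp hk3).1 h6
            omega
        · intro r hr hd
          change r ∣ k + t + h * w at hd
          have hrN := (mem_Icc.1 (mem_filter.1 hr).1).2
          rw [add_assoc] at hd
          have h6 := key r (hRp r hr) (hR3 r hr) hrN (j + h) (t + h * w) (by
            rw [add_mul]
            exact ht2.add_right _) hd
          have h7 := (Nat.prime_dvd_prime_iff_eq (hRp r hr) hk4).1 h6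
          omega
      · intro x _ y _ hxy
        simpa using hxy
    exact_mod_cast h2
  have hsplit : ((Finset.Ioc a (a + u)).filter
      (fun k => (k * 2 ^ ν + j).Prime ∧ (k * 2 ^ ν + (j + h)).Prime)) ⊆
      ((Finset.Ioc a (a + u)).filter (fun k => k % 2 = 0 % 2 ∧
      (k * 2 ^ ν + j).Prime ∧ (k * 2 ^ ν + (j + h)).Prime)) ∪
      ((Finset.Ioc a (a + u)).filter (fun k => k % 2 = 1 % 2 ∧
      (k * 2 ^ ν + j).Prime ∧ (k * 2 ^ ν + (j + h)).Prime)) := by
    intro k hk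
    rw [mem_filter] at hk
    rw [mem_union, mem_filter, mem_filter]
    rcases Nat.mod_two_eq_zero_or_one k with h1 | h1
    · exact Or.inl ⟨hk.1, h1, hk.2⟩
    · exact Or.inr ⟨hk.1, h1, hk.2⟩
  have htot : (((Finset.Ioc a (a + u)).filter
      (fun k => (k * 2 ^ ν + j).Prime ∧ (k * 2 ^ ν + (j + h)).Prime)).card : ℝ) ≤
      2 * (u / (Real.log M ^ 2 / (32 * gg (2 * h))) + (N : ℝ) ^ 6) := by
    have h1 := (card_le_card hsplit).trans (card_union_le _ _)
    have h2 := hcount 0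
    have h3 := hcount 1
    have h4 : (((Finset.Ioc a (a + u)).filter
      (fun k => (k * 2 ^ ν + j).Prime ∧ (k * 2 ^ ν + (j + h)).Prime)).card : ℝ) ≤
      (((Finset.Ioc a (a + u)).filter (fun k => k % 2 = 0 % 2 ∧
      (k * 2 ^ ν + j).Prime ∧ (k * 2 ^ ν + (j + h)).Prime)).card : ℝ) +
      (((Finset.Ioc a (a + u)).filter (fun k => k % 2 = 1 % 2 ∧
      (k * 2 ^ ν + j).Prime ∧ (k * 2 ^ ν + (j + h)).Prime)).card : ℝ) := by
      exact_mod_cast h1
    linarith
  have h3 : (u : ℝ) / (Real.log M ^ 2 / (32 * gg (2 * h))) ≤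
      32768 * gg (2 * h) * u / Real.log u ^ 2 := by
    have h4 : (1 / 1024) * Real.log u ^ 2 ≤ Real.log M ^ 2 := by
      have : ((1 / 32) * Real.log u) ^ 2 ≤ Real.log M ^ 2 := by gcongr
      calc _ = ((1 / 32) * Real.log u) ^ 2 := by ring
        _ ≤ _ := this
    calc (u : ℝ) / (Real.log M ^ 2 / (32 * gg (2 * h)))
        ≤ (u : ℝ) / ((1 / 1024) * Real.log u ^ 2 / (32 * gg (2 * h))) := by gcongr
      _ = 32768 * gg (2 * h) * u / Real.log u ^ 2 := by
          field_simp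
          ring
  have h6 : (N : ℝ) ^ 6 ≤ (u : ℝ) ^ (3 / 4 : ℝ) := by
    calc (N : ℝ) ^ 6 ≤ ((u : ℝ) ^ (1 / 8 : ℝ)) ^ 6 := by gcongr
      _ = (u : ℝ) ^ (3 / 4 : ℝ) := by
          rw [← Real.rpow_natCast _ 6, ← Real.rpow_mul hu0.le]; norm_num
  have h8 : (u : ℝ) / Real.log u ^ 2 ≤ gg (2 * h) * u / Real.log u ^ 2 := by
    apply div_le_div_of_nonneg_right _ (by positivity)
    nlinarith
  have h10 : (u : ℝ) ^ (3 / 4 : ℝ) ≤ u / Real.log u ^ 2 := by
    have : 0 ≤ (u : ℝ) ^ (3 / 4 : ℝ) := by positivity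
    linarith
  have h9 : 65538 * gg (2 * h) * (u : ℝ) / Real.log u ^ 2 =
    2 * (32768 * gg (2 * h) * u / Real.log u ^ 2 + gg (2 * h) * u / Real.log u ^ 2) := by ring
  rw [h9]
  linarith

end Pool.Agent.X28.SP
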