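import Pool.Agent.X28.SP.Avg
import Pool.Agent.X28.SP.Prog

/-! The second moment of the number of primes in the intervals above the multiples of a power of two. -/

set_option autoImplicit false

open Finset

namespace Pool.Agent.X28.SP
open Pool.Agent.H197R2.PG

/-- the `j ≤ H` with `k 2 ^ ν + r + j` prime -/
def hitP (ν r H k : ℕ) : Finset ℕ := (Icc 1 H).filter fun j => (k * 2 ^ ν + (r + j)).Prime

/-- the singular factor on average over an interval -/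
lemma avg_interval : ∃ C : ℝ, 1 ≤ C ∧ ∀ H : ℕ, 
    ∑ x ∈ (Icc 1 H).offDiag, gg (2 * Nat.dist x.1 x.2) ≤ C * (H : ℝ) ^ 2 := by
  obtain ⟨C, hC, h⟩ := pair_avg_pow
  have hl : 0 < Real.log 3 := Real.log_pos (by norm_num)
  refine ⟨3 * (C * Real.log 3) + 1, by nlinarith, fun H => ?_⟩
  have h1 := h 1 2 H (Icc 1 H) (by norm_num) (subset_refl _) (by
    rw [Nat.card_Icc, Nat.add_sub_cancel]
    have : (0 : ℝ) ≤ H := Nat.cast_nonneg _
    norm_num
    linarith)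
  simp only [pow_one] at h1
  refine h1.trans ?_
  rw [Nat.card_Icc, Nat.add_sub_cancel]
  have e : Real.log ((1 : ℕ) * ((2 : ℕ) + 1 : ℝ)) = Real.log 3 := by norm_num
  rw [e]
  have : (0 : ℝ) ≤ (H : ℝ) ^ 2 := by positivity
  nlinarith

/-- one dyadic block -/
lemma block : ∃ C : ℝ, 1 ≤ C ∧ ∃ u0 : ℕ, ∀ ν r H u : ℕ, u0 ≤ u → 2 * (H : ℝ) ≤ (u : ℝ) ^ (1 / 16 : ℝ) →
    ∑ k ∈ Ioc u (u + u), (#(hitP ν r H k) : ℝ) ^ 2 ≤ u + C * (H : ℝ) ^ 2 * u / Real.log u ^ 2 := by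
  obtain ⟨C1, hC1, hA⟩ := avg_interval
  obtain ⟨C2, hC2, u0, hP⟩ := pair_prog
  refine ⟨2 * (C2 * C1), by nlinarith, u0, fun ν r H u hu hH => ?_⟩
  have h1 : ∀ k ∈ Ioc u (u + u), (#(hitP ν r H k) : ℝ) ^ 2 ≤
      1 + 2 * (#((hitP ν r H k).offDiag) : ℝ) := by
    intro k _
    have h2 : #((hitP ν r H k).offDiag) + #(hitP ν r H k) = #(hitP ν r H k) ^ 2 := by
      rw [offDiag_card, sq]
      have : #(hitP ν r H k) ≤ #(hitP ν r H k) * #(hitP ν r H k) := Nat.le_mul_self _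
      omega
    have h3 : #(hitP ν r H k) ≤ 1 + #((hitP ν r H k).offDiag) := by
      rw [offDiag_card]
      rcases Nat.lt_or_ge (#(hitP ν r H k)) 2 with h | h
      · omega
      · have : 2 * #(hitP ν r H k) ≤ #(hitP ν r H k) * #(hitP ν r H k) := Nat.mul_le_mul_right _ h
        omega
    have h4 : #(hitP ν r H k) ^ 2 ≤ 1 + 2 * #((hitP ν r H k).offDiag) := by omega
    exact_mod_cast h4
  refine (sum_le_sum h1).trans ?_
  rw [sum_add_distrib, ← mul_sum]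
  have hcard : ∑ k ∈ Ioc u (u + u), (1 : ℝ) = u := by
    simp
  rw [hcard]
  have h2 : ∑ k ∈ Ioc u (u + u), (#((hitP ν r H k).offDiag) : ℝ) =
      ∑ x ∈ (Icc 1 H).offDiag, (#((Ioc u (u + u)).filter fun k =>
        (k * 2 ^ ν + (r + x.1)).Prime ∧ (k * 2 ^ ν + (r + x.2)).Prime) : ℝ) := by
    have e1 : ∀ k, #((hitP ν r H k).offDiag) = #((Icc 1 H).offDiag.filter fun x =>
        (k * 2 ^ ν + (r + x.1)).Prime ∧ (k * 2 ^ ν + (r + x.2)).Prime) := by
      intro k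
      congr 1
      ext x
      unfold hitP
      simp only [mem_offDiag, mem_filter]
      tauto
    have e2 : ∑ k ∈ Ioc u (u + u), #((hitP ν r H k).offDiag) =
      ∑ x ∈ (Icc 1 H).offDiag, #((Ioc u (u + u)).filter fun k =>
        (k * 2 ^ ν + (r + x.1)).Prime ∧ (k * 2 ^ ν + (r + x.2)).Prime) := by
      simp only [e1, card_filter]
      exact sum_comm
    exact_mod_cast e2
  rw [h2]
  have h3 : ∑ x ∈ (Icc 1 H).offDiag, (#((Ioc u (u + u)).filter fun k =>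
        (k * 2 ^ ν + (r + x.1)).Prime ∧ (k * 2 ^ ν + (r + x.2)).Prime) : ℝ) ≤
      ∑ x ∈ (Icc 1 H).offDiag, C2 * gg (2 * Nat.dist x.1 x.2) * u / Real.log u ^ 2 := by
    apply sum_le_sum
    intro x hx
    rw [mem_offDiag, mem_Icc, mem_Icc] at hx
    obtain ⟨hx1, hx2, hx3⟩ := hx
    have hd : 0 < Nat.dist x.1 x.2 := Nat.dist_pos_of_ne hx3
    have hdH : 2 * (Nat.dist x.1 x.2 : ℝ) ≤ (u : ℝ) ^ (1 / 16 : ℝ) := by
      have : Nat.dist x.1 x.2 ≤ H := by unfold Nat.dist; omega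
      have : (Nat.dist x.1 x.2 : ℝ) ≤ H := by exact_mod_cast this
      linarith
    have hb := hP ν (r + min x.1 x.2) (Nat.dist x.1 x.2) u u hd hu le_rfl hdH
    refine le_trans (le_of_eq ?_) hb
    congr 2
    ext k
    simp only [mem_filter]
    rcases le_total x.1 x.2 with h | h
    · have e1 : r + min x.1 x.2 = r + x.1 := by rw [min_eq_left h]
      have e2 : r + min x.1 x.2 + Nat.dist x.1 x.2 = r + x.2 := by
        rw [min_eq_left h]; unfold Nat.dist; omega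
      rw [e1] at e2 ⊢
      rw [e2]
    · have e1 : r + min x.1 x.2 = r + x.2 := by rw [min_eq_right h]
      have e2 : r + min x.1 x.2 + Nat.dist x.1 x.2 = r + x.1 := by
        rw [min_eq_right h]; unfold Nat.dist; omega
      rw [e1] at e2 ⊢
      rw [e2]
      tauto
  have h4 : ∑ x ∈ (Icc 1 H).offDiag, C2 * gg (2 * Nat.dist x.1 x.2) * u / Real.log u ^ 2 =
      C2 * u / Real.log u ^ 2 * ∑ x ∈ (Icc 1 H).offDiag, gg (2 * Nat.dist x.1 x.2) := by
    rw [mul_sum]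
    refine sum_congr rfl fun x _ => ?_
    ring
  have h5 : C2 * u / Real.log u ^ 2 * ∑ x ∈ (Icc 1 H).offDiag, gg (2 * Nat.dist x.1 x.2) ≤
      C2 * u / Real.log u ^ 2 * (C1 * (H : ℝ) ^ 2) :=
    mul_le_mul_of_nonneg_left (hA H) (by positivity)
  have h6 : 2 * (C2 * C1) * (H : ℝ) ^ 2 * u / Real.log u ^ 2 =
      2 * (C2 * u / Real.log u ^ 2 * (C1 * (H : ℝ) ^ 2)) := by ring
  rw [h6]
  linarith

/-- the weighted sum over dyadic blocks, from above -/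
lemma blocks (f : ℕ → ℝ) (hf : ∀ k, 0 ≤ f k) (B : ℝ) (i0 : ℕ) : ∀ m : ℕ,
    (∀ i : ℕ, i0 ≤ i → i < i0 + m → ∑ k ∈ Ioc (2 ^ i) (2 ^ i + 2 ^ i), f k ≤ B * 2 ^ i) →
    ∑ k ∈ Ioc (2 ^ i0) (2 ^ (i0 + m)), f k / k ≤ B * m := by
  intro m
  induction m with
  | zero => intro _; simp
  | succ m ih =>
    intro h
    have h1 := ih (fun i hi hi2 => h i hi (by omega))
    have h2 := h (i0 + m) (by omega) (by omega)
    have e : Ioc (2 ^ i0) (2 ^ (i0 + (m + 1))) =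
        Ioc (2 ^ i0) (2 ^ (i0 + m)) ∪ Ioc (2 ^ (i0 + m)) (2 ^ (i0 + m) + 2 ^ (i0 + m)) := by
      have e1 : 2 ^ (i0 + (m + 1)) = 2 ^ (i0 + m) + 2 ^ (i0 + m) := by
        rw [← add_assoc, pow_succ]; ring
      rw [e1, Ioc_union_Ioc_eq_Ioc (Nat.pow_le_pow_right (by norm_num) (by omega)) (Nat.le_add_right _ _)]
    have hdis : Disjoint (Ioc (2 ^ i0) (2 ^ (i0 + m)))
        (Ioc (2 ^ (i0 + m)) (2 ^ (i0 + m) + 2 ^ (i0 + m))) := by
      rw [Finset.disjoint_left]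
      intro k hk hk2
      rw [mem_Ioc] at hk hk2
      omega
    rw [e, sum_union hdis]
    have h3 : ∑ k ∈ Ioc (2 ^ (i0 + m)) (2 ^ (i0 + m) + 2 ^ (i0 + m)), f k / k ≤
        (∑ k ∈ Ioc (2 ^ (i0 + m)) (2 ^ (i0 + m) + 2 ^ (i0 + m)), f k) / 2 ^ (i0 + m) := by
      rw [sum_div]
      apply sum_le_sum
      intro k hk
      rw [mem_Ioc] at hk
      apply div_le_div_of_nonneg_left (hf k) (by positivity)
      exact_mod_cast hk.1.le
    have h4 : (∑ k ∈ Ioc (2 ^ (i0 + m)) (2 ^ (i0 + m) + 2 ^ (i0 + m)), f k) / 2 ^ (i0 + m) ≤ B := by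
      rw [div_le_iff₀ (by positivity)]
      exact h2
    push_cast
    linarith

end Pool.Agent.X28.SP
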