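import Pool.Agent.X28.SP.Main

/-! Primes in the translates of several sparse sequences, one shift for each of them. -/

set_option autoImplicit false

open Finset

namespace Pool.Agent.X28.SP

/-- the indices `k` in `K` with all `f j k + h j` prime -/
def hitV (K : Finset ℕ) {r : ℕ} (f : Fin r → ℕ → ℕ) (h : Fin r → ℕ) : Finset ℕ :=
  K.filter fun k => ∀ j, (f j k + h j).Prime

lemma cntV (r X : ℕ) (a : Fin r → ℕ) : #((Box r X).filter fun h => ∀ j, (a j + h j).Prime) =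
    ∏ j, #((Icc 1 X).filter fun h => (a j + h).Prime) := by
  have e : (Box r X).filter (fun h => ∀ j, (a j + h j).Prime) =
      Fintype.piFinset fun j : Fin r => (Icc 1 X).filter fun h => (a j + h).Prime := by
    ext h
    unfold Box
    simp only [mem_filter, Fintype.mem_piFinset]
    exact ⟨fun ⟨a, b⟩ j => ⟨a j, b j⟩, fun a => ⟨fun j => (a j).1, fun j => (a j).2⟩⟩
  rw [e, Fintype.card_piFinset]

lemma cntV2 (r X : ℕ) (a b : Fin r → ℕ) :
    #((Box r X).filter fun h => (∀ j, (a j + h j).Prime) ∧ ∀ j, (b j + h j).Prime) =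
    ∏ j, #((Icc 1 X).filter fun h => (a j + h).Prime ∧ (b j + h).Prime) := by
  have e : (Box r X).filter (fun h => (∀ j, (a j + h j).Prime) ∧ ∀ j, (b j + h j).Prime) =
      Fintype.piFinset fun j : Fin r => (Icc 1 X).filter fun h => (a j + h).Prime ∧ (b j + h).Prime := by
    ext h
    unfold Box
    simp only [mem_filter, Fintype.mem_piFinset]
    exact ⟨fun ⟨a, b, c⟩ j => ⟨a j, b j, c j⟩,
      fun a => ⟨fun j => (a j).1, fun j => (a j).2.1, fun j => (a j).2.2⟩⟩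
  rw [e, Fintype.card_piFinset]

lemma firstV (r X : ℕ) (K : Finset ℕ) (f : Fin r → ℕ → ℕ) : ∑ h ∈ Box r X, (#(hitV K f h) : ℝ) =
    ∑ k ∈ K, ∏ j, (#((Icc 1 X).filter fun h => (f j k + h).Prime) : ℝ) := by
  have e : ∑ h ∈ Box r X, #(hitV K f h) =
      ∑ k ∈ K, #((Box r X).filter fun h => ∀ j, (f j k + h j).Prime) := by
    unfold hitV
    simp only [card_filter]
    exact sum_comm
  have e2 : ((∑ h ∈ Box r X, #(hitV K f h) : ℕ) : ℝ) =
      ((∑ k ∈ K, #((Box r X).filter fun h => ∀ j, (f j k + h j).Prime) : ℕ) : ℝ) := by rw [e]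
  push_cast at e2
  rw [e2]
  refine sum_congr rfl fun s _ => ?_
  rw [cntV]
  push_cast
  rfl

lemma secondV (r X : ℕ) (K : Finset ℕ) (f : Fin r → ℕ → ℕ) : ∑ h ∈ Box r X, (#(hitV K f h) : ℝ) ^ 2 =
    ∑ z ∈ K ×ˢ K, ∏ j, (#((Icc 1 X).filter fun h => (f j z.1 + h).Prime ∧ (f j z.2 + h).Prime) : ℝ) := by
  have e : ∑ h ∈ Box r X, #(hitV K f h) ^ 2 =
      ∑ z ∈ K ×ˢ K, #((Box r X).filter fun h => (∀ j, (f j z.1 + h j).Prime) ∧ ∀ j, (f j z.2 + h j).Prime) := by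
    have e1 : ∀ h : Fin r → ℕ, #(hitV K f h) ^ 2 =
        #((K ×ˢ K).filter fun z => (∀ j, (f j z.1 + h j).Prime) ∧ ∀ j, (f j z.2 + h j).Prime) := by
      intro h
      rw [sq, ← card_product]
      congr 1
      ext z
      unfold hitV
      simp only [mem_product, mem_filter]
      tauto
    simp only [e1, card_filter]
    exact sum_comm
  have e2 : ((∑ h ∈ Box r X, #(hitV K f h) ^ 2 : ℕ) : ℝ) = ((∑ z ∈ K ×ˢ K, #((Box r X).filter fun h =>
    (∀ j, (f j z.1 + h j).Prime) ∧ ∀ j, (f j z.2 + h j).Prime) : ℕ) : ℝ) := by rw [e]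
  push_cast at e2
  rw [e2]
  refine sum_congr rfl fun z _ => ?_
  rw [cntV2]
  push_cast
  rfl

lemma prod_le_sum_pow {r : ℕ} (hr : 1 ≤ r) (a : Fin r → ℝ) (ha : ∀ i, 0 ≤ a i) :
    ∏ i, a i ≤ ∑ i, a i ^ r := by
  haveI : Nonempty (Fin r) := ⟨⟨0, hr⟩⟩
  obtain ⟨i0, hi0⟩ := Finite.exists_max a
  have h1 : ∏ i, a i ≤ ∏ _i : Fin r, a i0 := prod_le_prod (fun i _ => ha i) fun i _ => hi0 i
  rw [prod_const, card_univ, Fintype.card_fin] at h1
  exact h1.trans (single_le_sum (f := fun i => a i ^ r) (fun i _ => pow_nonneg (ha i) r) (mem_univ i0))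

/-- averages of the product of the singular factors -/
lemma avgV (r : ℕ) (hr : 1 ≤ r) : ∃ C : ℝ, 1 ≤ C ∧ ∀ (Y : ℕ) (K : Finset ℕ) (f : Fin r → ℕ → ℕ), 16 ≤ Y →
    (∀ i, Set.InjOn (f i) K) → (∀ i, ∀ k ∈ K, f i k ∈ Icc 1 Y) →
    ∑ x ∈ K.offDiag, ∏ i, Pool.Agent.H197R2.PG.gg (2 * Nat.dist (f i x.1) (f i x.2)) ≤
      C * Real.log (Real.log Y) ^ r * (#K : ℝ) ^ 2 := by
  classical
  obtain ⟨C, hC, hA⟩ := pair_avg_ll r hr
  have hr1 : (1 : ℝ) ≤ r := by exact_mod_cast hr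
  refine ⟨r * C, by nlinarith, fun Y K f hY hi hf => ?_⟩
  have h1 : ∑ x ∈ K.offDiag, ∏ i, Pool.Agent.H197R2.PG.gg (2 * Nat.dist (f i x.1) (f i x.2)) ≤
      ∑ x ∈ K.offDiag, ∑ i, Pool.Agent.H197R2.PG.gg (2 * Nat.dist (f i x.1) (f i x.2)) ^ r :=
    sum_le_sum fun x _ => prod_le_sum_pow hr _ fun i =>
      zero_le_one.trans (Pool.Agent.H197R2.PG.one_le_gg _)
  refine h1.trans ?_
  rw [sum_comm]
  have h2 : ∀ i : Fin r, ∑ x ∈ K.offDiag, Pool.Agent.H197R2.PG.gg (2 * Nat.dist (f i x.1) (f i x.2)) ^ r ≤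
      C * Real.log (Real.log Y) ^ r * (#K : ℝ) ^ 2 := by
    intro i
    have hc : #(K.image (f i)) = #K := card_image_of_injOn (hi i)
    have h3 := hA Y (K.image (f i)) hY (by
      intro s hs
      rw [mem_image] at hs
      obtain ⟨k, hk, rfl⟩ := hs
      exact hf i k hk)
    rw [hc] at h3
    refine le_trans (le_of_eq ?_) h3
    apply sum_nbij (fun x => (f i x.1, f i x.2))
    · intro x hx
      rw [mem_offDiag] at hx ⊢
      exact ⟨mem_image_of_mem _ hx.1, mem_image_of_mem _ hx.2.1, fun h => hx.2.2 (hi i hx.1 hx.2.1 h)⟩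
    · intro x hx y hy hxy
      rw [mem_coe, mem_offDiag] at hx hy
      have e1 : f i x.1 = f i y.1 := congrArg Prod.fst hxy
      have e2 : f i x.2 = f i y.2 := congrArg Prod.snd hxy
      exact Prod.ext (hi i hx.1 hy.1 e1) (hi i hx.2.1 hy.2.1 e2)
    · intro z hz
      rw [mem_coe, mem_offDiag, mem_image, mem_image] at hz
      obtain ⟨⟨a, ha, ha'⟩, ⟨b, hb, hb'⟩, hab⟩ := hz
      refine ⟨(a, b), ?_, Prod.ext ha' hb'⟩
      rw [mem_coe, mem_offDiag]
      refine ⟨ha, hb, fun h => hab ?_⟩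
      have h' : a = b := h
      rw [← ha', ← hb', h']
    · intro x _
      rfl
  refine (sum_le_sum fun i _ => h2 i).trans (le_of_eq ?_)
  rw [sum_const, card_univ, Fintype.card_fin, nsmul_eq_mul]
  ring

/-- Primes in the translates of several sparse sequences. -/
theorem sparseV (r : ℕ) (hr : 1 ≤ r) : ∃ c : ℝ, 0 < c ∧ ∃ X0 : ℕ, ∀ (X Y : ℕ) (S : Finset ℕ)
    (f : Fin r → ℕ → ℕ), X0 ≤ X → 16 ≤ Y → (∀ i, Set.InjOn (f i) S) → (∀ i, ∀ k ∈ S, f i k ∈ Icc 1 Y) →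
    2 * (Y : ℝ) ≤ (X : ℝ) ^ (1 / 16 : ℝ) → Real.log X ^ r ≤ #S →
    c * X ^ r / Real.log (Real.log Y) ^ r ≤
      #((Box r X).filter fun h => c * #S / Real.log X ^ r ≤ (#(hitV S f h) : ℝ)) := by
  obtain ⟨C1, hC1, hA⟩ := avgV r hr
  obtain ⟨C2, hC2, hU⟩ := up
  obtain ⟨C3, hC3, u0, hB⟩ := both
  obtain ⟨X1, hL⟩ := low
  set D : ℝ := C2 ^ r * 2 ^ r + C3 ^ r * C1 with hD
  have hD1 : 1 ≤ D := by
    have h1 : (1 : ℝ) ≤ C2 ^ r := one_le_pow₀ hC2
    have h2 : (1 : ℝ) ≤ 2 ^ r := one_le_pow₀ (by norm_num)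
    have h3 : (1 : ℝ) ≤ C3 ^ r := one_le_pow₀ hC3
    nlinarith
  have hev : ∀ᶠ x : ℝ in Filter.atTop, x ^ (1 / 16 : ℝ) * (2 * Real.log x) ≤ x := by
    have h1 := (isLittleO_log_rpow_atTop (by norm_num : (0 : ℝ) < 15 / 16)).bound
      (by norm_num : (0 : ℝ) < 1 / 2)
    filter_upwards [h1, Filter.eventually_gt_atTop 1] with x h1 hx
    have hl : 0 < Real.log x := Real.log_pos hx
    rw [Real.norm_of_nonneg hl.le, Real.norm_of_nonneg (by positivity)] at h1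
    have hx0 : 0 < x := by linarith
    calc x ^ (1 / 16 : ℝ) * (2 * Real.log x) ≤ x ^ (1 / 16 : ℝ) * x ^ (15 / 16 : ℝ) :=
          mul_le_mul_of_nonneg_left (by linarith) (by positivity)
      _ = x := by rw [← Real.rpow_add hx0]; norm_num
  obtain ⟨x0, hx0⟩ := Filter.eventually_atTop.1 hev
  refine ⟨1 / (4 * 16 ^ r * D), by positivity, max (max u0 X1) (max 3 ⌈x0⌉₊), ?_⟩
  intro X Y S f hX hY hi hS hYX hm
  have hX3 : 3 ≤ X := by omega
  have hXu : u0 ≤ X := by omega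
  have hX1 : X1 ≤ X := by omega
  have hXx : x0 ≤ X := (Nat.le_ceil _).trans (by exact_mod_cast (show ⌈x0⌉₊ ≤ X by omega))
  have hXr : (3 : ℝ) ≤ X := by exact_mod_cast hX3
  have hXp : (0 : ℝ) < X := by linarith
  have hev' := hx0 X hXx
  set L := Real.log X with hLdef
  have hL1 : 1 < L := by
    rw [hLdef, Real.lt_log_iff_exp_lt hXp]
    linarith [Real.exp_one_lt_d9]
  have hL0 : 0 < L := by linarith
  set LL := Real.log (Real.log Y) with hLL
  have hYr : (16 : ℝ) ≤ Y := by exact_mod_cast hY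
  have hLL1 : 1 / 2 ≤ LL := by
    have h1 : (2.7 : ℝ) < Real.log Y := by
      have h1 : Real.log 16 ≤ Real.log Y := Real.log_le_log (by norm_num) hYr
      have h2 : Real.log 16 = 4 * Real.log 2 := by
        rw [show (16 : ℝ) = 2 ^ 4 by norm_num, Real.log_pow]; norm_num
      have := Real.log_two_gt_d9
      linarith
    rw [hLL, Real.le_log_iff_exp_le (by linarith)]
    have h2 : Real.exp (1 / 2 : ℝ) ≤ Real.exp 1 := Real.exp_le_exp.2 (by norm_num)
    have h3 : Real.exp (1 / 2 : ℝ) ^ 2 = Real.exp 1 := by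
      rw [← Real.exp_nat_mul]; norm_num
    have h4 := Real.exp_one_lt_d9
    have h5 := Real.exp_pos (1 / 2 : ℝ)
    nlinarith
  have hLLr : 1 ≤ 2 ^ r * LL ^ r := by
    rw [← mul_pow]
    exact one_le_pow₀ (by linarith)
  have hLL0 : 0 < LL := by linarith
  set m : ℝ := (#S : ℝ) with hmdef
  have hm1 : 1 ≤ m := (one_le_pow₀ hL1.le).trans hm
  have hm0 : 0 < m := by linarith
  have hYle : (Y : ℝ) ≤ X / (4 * L) := by
    rw [le_div_iff₀ (by positivity)]
    have h1 : (Y : ℝ) * (4 * L) = (2 * Y) * (2 * L) := by ring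
    rw [h1]
    exact (mul_le_mul_of_nonneg_right hYX (by positivity)).trans hev'
  have hYX' : Y ≤ X := by
    have h1 : (X : ℝ) / (4 * L) ≤ X := div_le_self hXp.le (by linarith)
    exact_mod_cast hYle.trans h1
  set t : ℝ := m / (2 * 4 ^ r * L ^ r) with ht
  have ht0 : 0 < t := by positivity
  set G := (Box r X).filter fun h => t ≤ (#(hitV S f h) : ℝ) with hG
  -- the first moment
  have hfirst : 2 * t * X ^ r ≤ ∑ h ∈ Box r X, (#(hitV S f h) : ℝ) := by
    rw [firstV]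
    have h1 : ∀ s ∈ S, ((X : ℝ) / (4 * L)) ^ r ≤
        ∏ j, (#((Icc 1 X).filter fun h => (f j s + h).Prime) : ℝ) := by
      intro s hs
      have e : ((X : ℝ) / (4 * L)) ^ r = ∏ _j : Fin r, ((X : ℝ) / (4 * L)) := by
        rw [prod_const, card_univ, Fintype.card_fin]
      rw [e]
      apply prod_le_prod (fun _ _ => by positivity)
      intro j _
      apply hL X (f j s) hX1
      have : (f j s : ℝ) ≤ Y := by exact_mod_cast (mem_Icc.1 (hS j s hs)).2
      linarith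
    have h2 := sum_le_sum h1
    rw [sum_const, nsmul_eq_mul] at h2
    refine le_trans (le_of_eq ?_) h2
    rw [ht, ← hmdef, div_pow, mul_pow]
    field_simp
  -- the second moment
  have hsecond : ∑ h ∈ Box r X, (#(hitV S f h) : ℝ) ^ 2 ≤ m ^ 2 * X ^ r * D * LL ^ r / L ^ (2 * r) := by
    rw [secondV, ← diag_union_offDiag, sum_union (disjoint_diag_offDiag S)]
    have h1 : ∑ z ∈ S.diag, ∏ j, (#((Icc 1 X).filter fun h => (f j z.1 + h).Prime ∧ (f j z.2 + h).Prime) : ℝ) ≤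
        m * (C2 * X / L) ^ r := by
      rw [hmdef, ← diag_card S, ← nsmul_eq_mul]
      apply sum_le_card_nsmul
      intro z hz
      rw [mem_diag] at hz
      have e : (C2 * (X : ℝ) / L) ^ r = ∏ _j : Fin r, (C2 * (X : ℝ) / L) := by
        rw [prod_const, card_univ, Fintype.card_fin]
      rw [e]
      apply prod_le_prod (fun _ _ => Nat.cast_nonneg _)
      intro j _
      have h2 := hU X (f j z.1) (by omega) (((mem_Icc.1 (hS j z.1 hz.1)).2).trans hYX')
      refine le_trans ?_ h2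
      have : (Icc 1 X).filter (fun h => (f j z.1 + h).Prime ∧ (f j z.2 + h).Prime) ⊆
          (Icc 1 X).filter (fun h => (f j z.1 + h).Prime) :=
        fun h hh => mem_filter.2 ⟨(mem_filter.1 hh).1, (mem_filter.1 hh).2.1⟩
      exact_mod_cast card_le_card this
    have h2 : ∑ z ∈ S.offDiag, ∏ j, (#((Icc 1 X).filter fun h => (f j z.1 + h).Prime ∧ (f j z.2 + h).Prime) : ℝ) ≤
        (C3 * X / L ^ 2) ^ r * (C1 * LL ^ r * m ^ 2) := by
      refine le_trans ?_ (mul_le_mul_of_nonneg_left (hA Y S f hY hi hS) (by positivity))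
      rw [mul_sum]
      apply sum_le_sum
      intro z hz
      rw [mem_offDiag] at hz
      have e : (C3 * (X : ℝ) / L ^ 2) ^ r = ∏ _j : Fin r, (C3 * (X : ℝ) / L ^ 2) := by
        rw [prod_const, card_univ, Fintype.card_fin]
      rw [e, ← prod_mul_distrib]
      apply prod_le_prod (fun _ _ => Nat.cast_nonneg _)
      intro j _
      refine (hB X Y (f j z.1) (f j z.2) hXu hYX (hS j z.1 hz.1) (hS j z.2 hz.2.1)
        (fun h => hz.2.2 (hi j hz.1 hz.2.1 h))).trans (le_of_eq ?_)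
      ring
    refine (add_le_add h1 h2).trans ?_
    have h3 : m * (C2 * X / L) ^ r ≤ m ^ 2 * X ^ r * (C2 ^ r * 2 ^ r) * LL ^ r / L ^ (2 * r) := by
      rw [div_pow, mul_pow, mul_div_assoc', div_le_div_iff₀ (by positivity) (by positivity)]
      have e : L ^ (2 * r) = L ^ r * L ^ r := by rw [two_mul, pow_add]
      rw [e]
      have h4 : L ^ r * 1 ≤ m * (2 ^ r * LL ^ r) :=
        mul_le_mul hm hLLr (by norm_num) hm0.le
      have h5 : 0 ≤ m * (C2 ^ r * X ^ r) * L ^ r := by positivity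
      calc m * (C2 ^ r * X ^ r) * (L ^ r * L ^ r) = (m * (C2 ^ r * X ^ r) * L ^ r) * (L ^ r * 1) := by ring
        _ ≤ (m * (C2 ^ r * X ^ r) * L ^ r) * (m * (2 ^ r * LL ^ r)) := mul_le_mul_of_nonneg_left h4 h5
        _ = _ := by ring
    have h4 : (C3 * X / L ^ 2) ^ r * (C1 * LL ^ r * m ^ 2) =
        m ^ 2 * X ^ r * (C3 ^ r * C1) * LL ^ r / L ^ (2 * r) := by
      rw [div_pow, mul_pow, ← pow_mul]
      ring
    rw [h4]
    refine (add_le_add_left h3 _).trans (le_of_eq ?_)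
    rw [hD]
    ring
  -- the good vectors
  have hlow : t * X ^ r ≤ ∑ h ∈ G, (#(hitV S f h) : ℝ) := by
    have h1 := sum_filter_add_sum_filter_not (Box r X) (fun h => t ≤ (#(hitV S f h) : ℝ))
      (fun h => (#(hitV S f h) : ℝ))
    have h2 : ∑ h ∈ (Box r X).filter (fun h => ¬ t ≤ (#(hitV S f h) : ℝ)), (#(hitV S f h) : ℝ) ≤ X ^ r * t := by
      have h3 : ∑ h ∈ (Box r X).filter (fun h => ¬ t ≤ (#(hitV S f h) : ℝ)), (#(hitV S f h) : ℝ) ≤
          ∑ h ∈ (Box r X).filter (fun h => ¬ t ≤ (#(hitV S f h) : ℝ)), t :=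
        sum_le_sum fun h hh => (not_le.1 (mem_filter.1 hh).2).le
      rw [sum_const, nsmul_eq_mul] at h3
      refine h3.trans (mul_le_mul_of_nonneg_right ?_ ht0.le)
      have h4 := card_filter_le (Box r X) (fun h => ¬ t ≤ (#(hitV S f h) : ℝ))
      rw [box_card] at h4
      exact_mod_cast h4
    rw [← hG] at h1
    linarith
  have hCS : (∑ h ∈ G, (#(hitV S f h) : ℝ)) ^ 2 ≤ #G * ∑ h ∈ G, (#(hitV S f h) : ℝ) ^ 2 :=
    sq_sum_le_card_mul_sum_sq
  have hGsum : ∑ h ∈ G, (#(hitV S f h) : ℝ) ^ 2 ≤ ∑ h ∈ Box r X, (#(hitV S f h) : ℝ) ^ 2 :=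
    sum_le_sum_of_subset_of_nonneg (filter_subset _ _) fun _ _ _ => by positivity
  have hfin : (t * X ^ r) ^ 2 ≤ #G * (m ^ 2 * X ^ r * D * LL ^ r / L ^ (2 * r)) := by
    calc (t * X ^ r) ^ 2 ≤ (∑ h ∈ G, (#(hitV S f h) : ℝ)) ^ 2 := pow_le_pow_left₀ (by positivity) hlow 2
      _ ≤ _ := hCS
      _ ≤ _ := mul_le_mul_of_nonneg_left (hGsum.trans hsecond) (Nat.cast_nonneg _)
  have hGc : 1 / (4 * 16 ^ r * D) * X ^ r / LL ^ r ≤ #G := by
    have h1 : (t * X ^ r) ^ 2 = (1 / (4 * 16 ^ r * D) * X ^ r / LL ^ r) *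
        (m ^ 2 * X ^ r * D * LL ^ r / L ^ (2 * r)) := by
      rw [ht, pow_mul, show (16 : ℝ) = 4 * 4 by norm_num, mul_pow 4 4 r]
      field_simp
      ring
    rw [h1] at hfin
    exact le_of_mul_le_mul_right hfin (by positivity)
  refine hGc.trans ?_
  have hsub : G ⊆ (Box r X).filter fun h => 1 / (4 * 16 ^ r * D) * m / L ^ r ≤ (#(hitV S f h) : ℝ) := by
    intro h hh
    rw [hG, mem_filter] at hh
    rw [mem_filter]
    refine ⟨hh.1, le_trans ?_ hh.2⟩
    rw [ht, div_le_div_iff₀ (by positivity) (by positivity)]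
    have h1 : (1 : ℝ) / (4 * 16 ^ r * D) ≤ 1 / (2 * 4 ^ r) := by
      apply one_div_le_one_div_of_le (by positivity)
      have h2 : (4 : ℝ) ^ r ≤ 16 ^ r := pow_le_pow_left₀ (by norm_num) (by norm_num) r
      nlinarith [show (0 : ℝ) < 16 ^ r by positivity]
    calc 1 / (4 * 16 ^ r * D) * m * (2 * 4 ^ r * L ^ r) ≤ 1 / (2 * 4 ^ r) * m * (2 * 4 ^ r * L ^ r) := by
          gcongr
      _ = m * L ^ r := by field_simp
  exact_mod_cast card_le_card hsub

end Pool.Agent.X28.SP
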